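import Mathlib

set_option autoImplicit false

open MeasureTheory Set Filter Topology
open scoped ContDiff

namespace Pool.Agent.H792R2

/-- `hq k F t s = ∫_0^1 u^k F (t + u (s - t)) du` -/
noncomputable def hq (k : ℕ) (F : ℝ → ℂ) (t s : ℝ) : ℂ :=
  ∫ u in (0 : ℝ)..1, ((u ^ k : ℝ) : ℂ) * F (t + u * (s - t))

theorem hasDerivAt_hq (k : ℕ) {F : ℝ → ℂ} (hF : ContDiff ℝ ∞ F) (t s : ℝ) :
    HasDerivAt (hq k F t) (hq (k + 1) (deriv F) t s) s := by
  have hF0 : Continuous F := hF.continuous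
  have hdiff : Differentiable ℝ F := hF.differentiable (by simp)
  have hF1 : Continuous (deriv F) := hF.continuous_deriv (by simp)
  -- bound
  have hc : Continuous fun q : ℝ × ℝ => ((q.2 ^ (k + 1) : ℝ) : ℂ) * deriv F (t + q.2 * (q.1 - t)) := by
    fun_prop
  obtain ⟨C, hC⟩ := (((isCompact_closedBall s 1).prod (isCompact_Icc (a := (0 : ℝ)) (b := 1)))).exists_bound_of_continuousOn
    hc.continuousOn
  have key := intervalIntegral.hasDerivAt_integral_of_dominated_loc_of_deriv_le (μ := volume)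
    (a := 0) (b := 1) (𝕜 := ℝ)
    (F := fun x u => ((u ^ k : ℝ) : ℂ) * F (t + u * (x - t)))
    (F' := fun x u => ((u ^ (k + 1) : ℝ) : ℂ) * deriv F (t + u * (x - t)))
    (x₀ := s) (s := Metric.ball s 1) (bound := fun _ => C) (Metric.ball_mem_nhds s one_pos)
    ?_ ?_ ?_ ?_ ?_ ?_
  · exact key.2
  · refine Eventually.of_forall fun x => Continuous.aestronglyMeasurable ?_
    fun_prop
  · apply Continuous.intervalIntegrable
    fun_prop
  · apply Continuous.aestronglyMeasurable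
    fun_prop
  · refine Eventually.of_forall fun u hu x hx => ?_
    rw [uIoc_of_le zero_le_one] at hu
    exact hC (x, u) ⟨Metric.ball_subset_closedBall hx, ⟨hu.1.le, hu.2⟩⟩
  · simp
  · refine Eventually.of_forall fun u hu x hx => ?_
    have h1 : HasDerivAt (fun x : ℝ => t + u * (x - t)) u x := by
      have := ((hasDerivAt_id x).sub_const t).const_mul u
      simpa using this.const_add t
    have h2 : HasDerivAt F (deriv F (t + u * (x - t))) (t + u * (x - t)) :=
      (hdiff _).hasDerivAt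
    have h3 := (h2.scomp x h1).const_mul ((u ^ k : ℝ) : ℂ)
    refine h3.congr_deriv ?_
    rw [Complex.real_smul]
    push_cast
    ring

theorem deriv_hq (k : ℕ) {F : ℝ → ℂ} (hF : ContDiff ℝ ∞ F) (t : ℝ) :
    deriv (hq k F t) = hq (k + 1) (deriv F) t := by
  funext s
  exact (hasDerivAt_hq k hF t s).deriv

theorem contDiff_deriv' {F : ℝ → ℂ} (hF : ContDiff ℝ ∞ F) : ContDiff ℝ ∞ (deriv F) := by
  have h : ContDiff ℝ (∞ + 1) F := by simpa using hF
  exact (contDiff_succ_iff_deriv.1 h).2.2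

theorem contDiff_hq (t : ℝ) (n : ℕ) : ∀ (k : ℕ) {F : ℝ → ℂ}, ContDiff ℝ ∞ F →
    ContDiff ℝ n (hq k F t) := by
  induction n with
  | zero =>
    intro k F hF
    have : Differentiable ℝ (hq k F t) := fun s => (hasDerivAt_hq k hF t s).differentiableAt
    exact contDiff_zero.2 this.continuous
  | succ n ih =>
    intro k F hF
    have e : ((n + 1 : ℕ) : WithTop ℕ∞) = (n : WithTop ℕ∞) + 1 := by push_cast; rfl
    rw [e, contDiff_succ_iff_deriv]
    refine ⟨fun s => (hasDerivAt_hq k hF t s).differentiableAt, fun h => by simp at h, ?_⟩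
    rw [deriv_hq k hF]
    exact ih (k + 1) (contDiff_deriv' hF)

theorem contDiff_hq_top (t : ℝ) (k : ℕ) {F : ℝ → ℂ} (hF : ContDiff ℝ ∞ F) :
    ContDiff ℝ ∞ (hq k F t) := contDiff_infty.2 fun n => contDiff_hq t n k hF

theorem iteratedDeriv_hq (t : ℝ) (n : ℕ) : ∀ (k : ℕ) {F : ℝ → ℂ}, ContDiff ℝ ∞ F →
    iteratedDeriv n (hq k F t) = hq (k + n) (iteratedDeriv n F) t := by
  induction n with
  | zero => intro k F hF; simp
  | succ n ih =>
    intro k F hF
    rw [iteratedDeriv_succ', deriv_hq k hF, ih (k + 1) (contDiff_deriv' hF), iteratedDeriv_succ']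
    congr 1
    omega

theorem norm_hq_le {k : ℕ} {F : ℝ → ℂ} {t s M : ℝ} (ht : t ∈ Icc (0 : ℝ) 1)
    (hs : s ∈ Icc (0 : ℝ) 1) (hM : ∀ x ∈ Icc (0 : ℝ) 1, ‖F x‖ ≤ M) : ‖hq k F t s‖ ≤ M := by
  have hM0 : 0 ≤ M := (norm_nonneg _).trans (hM t ht)
  have := intervalIntegral.norm_integral_le_of_norm_le_const (a := (0 : ℝ)) (b := 1) (C := M)
    (f := fun u => ((u ^ k : ℝ) : ℂ) * F (t + u * (s - t))) ?_
  · simpa [hq] using this
  · intro u hu
    rw [uIoc_of_le zero_le_one] at hu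
    rw [norm_mul, Complex.norm_real, Real.norm_eq_abs, abs_of_nonneg (pow_nonneg hu.1.le _)]
    have h1 : u ^ k ≤ 1 := pow_le_one₀ hu.1.le hu.2
    have h2 : ‖F (t + u * (s - t))‖ ≤ M := by
      apply hM
      have e : t + u * (s - t) = (1 - u) * t + u * s := by ring
      rw [e]
      constructor
      · have := hu.1; have := hu.2; have := ht.1; have := hs.1
        have h3 : 0 ≤ (1 - u) * t := mul_nonneg (by linarith) ht.1
        have h4 : 0 ≤ u * s := mul_nonneg hu.1.le hs.1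
        linarith
      · have h3 : (1 - u) * t ≤ (1 - u) * 1 := mul_le_mul_of_nonneg_left ht.2 (by linarith [hu.2])
        have h4 : u * s ≤ u * 1 := mul_le_mul_of_nonneg_left hs.2 hu.1.le
        linarith
    calc u ^ k * ‖F (t + u * (s - t))‖ ≤ 1 * M := by gcongr
      _ = M := one_mul M

theorem sub_eq_mul_hq {F : ℝ → ℂ} (hF : ContDiff ℝ ∞ F) (t s : ℝ) :
    F s = F t + ((s : ℂ) - (t : ℂ)) * hq 0 (deriv F) t s := by
  have hdiff : Differentiable ℝ F := hF.differentiable (by simp)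
  have hF1 : Continuous (deriv F) := hF.continuous_deriv (by simp)
  have h1 : ∀ u ∈ uIcc (0 : ℝ) 1, HasDerivAt (fun u : ℝ => F (t + u * (s - t)))
      (((s : ℂ) - (t : ℂ)) * deriv F (t + u * (s - t))) u := by
    intro u _
    have h1 : HasDerivAt (fun u : ℝ => t + u * (s - t)) (s - t) u := by
      have := ((hasDerivAt_id u).mul_const (s - t))
      simpa using this.const_add t
    have h2 : HasDerivAt F (deriv F (t + u * (s - t))) (t + u * (s - t)) :=
      (hdiff _).hasDerivAt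
    have h3 := h2.scomp u h1
    refine h3.congr_deriv ?_
    rw [Complex.real_smul]
    push_cast
    ring
  have h2 := intervalIntegral.integral_eq_sub_of_hasDerivAt h1 (by
    apply Continuous.intervalIntegrable
    fun_prop)
  rw [intervalIntegral.integral_const_mul] at h2
  simp only [one_mul, zero_mul, add_zero, add_sub_cancel] at h2
  simp only [hq, pow_zero, Complex.ofReal_one, one_mul]
  rw [h2]
  ring

/-- Hadamard's lemma with bounds: `f = f t + (X - t) h` with `h` smooth and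
`|h^(k)| ≤ sup |f^(k+1)|` on `[0,1]`. -/
theorem hadamard {f : ℝ → ℂ} (hf : ContDiff ℝ ∞ f) (t : ℝ) :
    ∃ h : ℝ → ℂ, ContDiff ℝ ∞ h ∧ (∀ s, f s = f t + ((s : ℂ) - (t : ℂ)) * h s) ∧
      (t ∈ Icc (0 : ℝ) 1 → ∀ (k : ℕ) (M : ℝ),
        (∀ x ∈ Icc (0 : ℝ) 1, ‖iteratedDeriv (k + 1) f x‖ ≤ M) →
        ∀ x ∈ Icc (0 : ℝ) 1, ‖iteratedDeriv k h x‖ ≤ M) := by
  refine ⟨hq 0 (deriv f) t, contDiff_hq_top t 0 (contDiff_deriv' hf), sub_eq_mul_hq hf t, ?_⟩
  intro ht k M hM x hx
  rw [iteratedDeriv_hq t k 0 (contDiff_deriv' hf), ← iteratedDeriv_succ']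
  exact norm_hq_le ht hx hM

end Pool.Agent.H792R2
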