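import Mathlib
import Pool.Agent.H792R2.Hadamard

set_option autoImplicit false

open MeasureTheory Set Filter Topology
open scoped ContDiff

namespace Pool.Agent.H792R2

/-- `s ↦ s - c`. -/
def Xc (c : ℂ) : ℝ → ℂ := fun s => (s : ℂ) - c

theorem contDiff_Xc (c : ℂ) : ContDiff ℝ ∞ (Xc c) := by
  unfold Xc
  exact Complex.ofRealCLM.contDiff.sub contDiff_const

theorem contDiff_div_of_tsupport {β α : ℝ → ℂ} (hβ : ContDiff ℝ ∞ β) (hα : ContDiff ℝ ∞ α)
    (h : ∀ s ∈ tsupport β, α s ≠ 0) : ContDiff ℝ ∞ (fun s => β s / α s) := by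
  rw [contDiff_iff_contDiffAt]
  intro s
  by_cases hs : s ∈ tsupport β
  · have h1 := hβ.contDiffAt.mul ((hα.contDiffAt (x := s)).inv (h s hs))
    refine h1.congr_of_eventuallyEq (Eventually.of_forall fun x => ?_)
    exact div_eq_mul_inv _ _
  · have h1 : β =ᶠ[𝓝 s] 0 := notMem_tsupport_iff_eventuallyEq.1 hs
    have h2 : (fun s => β s / α s) =ᶠ[𝓝 s] fun _ => 0 := by
      filter_upwards [h1] with x hx
      rw [hx]; simp
    exact contDiffAt_const.congr_of_eventuallyEq h2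

theorem exists_bump (t : ℝ) {r R : ℝ} (hr : 0 < r) (hR : r < R) :
    ∃ β : ℝ → ℝ, ContDiff ℝ ∞ (fun s => (β s : ℂ)) ∧ (∀ s, 0 ≤ β s) ∧
      (∀ s, |s - t| ≤ r → β s = 1) ∧
      tsupport (fun s => (β s : ℂ)) ⊆ Metric.closedBall t R := by
  let b : ContDiffBump t := ⟨r, R, hr, hR⟩
  refine ⟨b, ?_, fun s => b.nonneg, fun s hs => ?_, ?_⟩
  · exact Complex.ofRealCLM.contDiff.comp b.contDiff
  · exact b.one_of_mem_closedBall (by rw [Metric.mem_closedBall, Real.dist_eq]; exact hs)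
  · have h1 : Function.support (fun s => ((b s : ℝ) : ℂ)) ⊆ Function.support b := by
      intro s hs
      simp only [Function.mem_support, ne_eq, Complex.ofReal_eq_zero] at hs ⊢
      exact hs
    have h2 := closure_mono h1
    have h3 : closure (Function.support b) = Metric.closedBall t R := b.tsupport_eq
    rw [h3] at h2
    exact h2

theorem exists_inv_outside {c : ℂ} (hc : ∀ t ∈ Icc (0 : ℝ) 1, (t : ℂ) ≠ c) :
    ∃ h : ℝ → ℂ, ContDiff ℝ ∞ h ∧ ∀ s ∈ Icc (0 : ℝ) 1, Xc c s * h s = 1 := by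
  by_cases him : c.im = 0
  · set r : ℝ := c.re with hr
    have hcr : c = (r : ℂ) := by
      apply Complex.ext <;> simp [hr, him]
    have hr01 : r ∉ Icc (0 : ℝ) 1 := fun h => hc r h hcr.symm
    have hd : 1 / 2 < |r - 1 / 2| := by
      rw [mem_Icc, not_and_or, not_le, not_le] at hr01
      rcases hr01 with h | h
      · rw [abs_of_neg (by linarith)]; linarith
      · rw [abs_of_pos (by linarith)]; linarith
    obtain ⟨β, hβ1, -, hβ3, hβ4⟩ := exists_bump (1 / 2) (r := 1 / 2) (R := (1 / 2 + |r - 1 / 2|) / 2)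
      (by norm_num) (by linarith)
    refine ⟨fun s => (β s : ℂ) / Xc c s, contDiff_div_of_tsupport hβ1 (contDiff_Xc c) ?_, ?_⟩
    · intro s hs h0
      have h1 := hβ4 hs
      rw [Metric.mem_closedBall, Real.dist_eq] at h1
      have h2 : s = r := by
        unfold Xc at h0
        rw [sub_eq_zero, hcr] at h0
        exact_mod_cast h0
      rw [h2] at h1
      linarith
    · intro s hs
      have h1 : β s = 1 := hβ3 s (by rw [abs_le]; constructor <;> linarith [hs.1, hs.2])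
      have h2 : Xc c s ≠ 0 := by
        unfold Xc
        rw [sub_ne_zero]
        exact hc s hs
      change Xc c s * ((β s : ℂ) / Xc c s) = 1
      rw [h1, Complex.ofReal_one, mul_one_div, div_self h2]
  · have h2 : ∀ s : ℝ, Xc c s ≠ 0 := by
      intro s h0
      apply him
      unfold Xc at h0
      rw [sub_eq_zero] at h0
      rw [← h0, Complex.ofReal_im]
    exact ⟨fun s => (Xc c s)⁻¹, (contDiff_Xc c).inv h2, fun s _ => mul_inv_cancel₀ (h2 s)⟩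

variable {B : Type} [NormedRing B] [NormedAlgebra ℂ B]

/-- The hypotheses: `φ` is an epimorphism from the smooth functions on `[0,1]` onto `B`. -/
structure Epi (φ : (ℝ → ℂ) → B) : Prop where
  add : ∀ f g : ℝ → ℂ, ContDiff ℝ ∞ f → ContDiff ℝ ∞ g → φ (f + g) = φ f + φ g
  mul : ∀ f g : ℝ → ℂ, ContDiff ℝ ∞ f → ContDiff ℝ ∞ g → φ (f * g) = φ f * φ g
  smul : ∀ (c : ℂ) (f : ℝ → ℂ), ContDiff ℝ ∞ f → φ (c • f) = c • φ f
  congr : ∀ f g : ℝ → ℂ, ContDiff ℝ ∞ f → ContDiff ℝ ∞ g → EqOn f g (Icc (0 : ℝ) 1) → φ f = φ g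
  surj : ∀ b : B, ∃ f : ℝ → ℂ, ContDiff ℝ ∞ f ∧ φ f = b

namespace Epi

variable {φ : (ℝ → ℂ) → B} (H : Epi φ)

include H

theorem map_one : φ (fun _ => 1) = 1 := by
  have h : ∀ b : B, φ (fun _ => 1) * b = b := by
    intro b
    obtain ⟨f, hf, rfl⟩ := H.surj b
    rw [← H.mul _ _ contDiff_const hf]
    congr 1
    funext s
    simp
  have := h 1
  rwa [mul_one] at this

theorem map_const (c : ℂ) : φ (fun _ => c) = c • (1 : B) := by
  rw [← H.map_one, ← H.smul _ _ contDiff_const]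
  congr 1
  funext s
  simp

theorem map_zero : φ (fun _ => 0) = 0 := by rw [H.map_const, zero_smul]

theorem comm (a b : B) : a * b = b * a := by
  obtain ⟨f, hf, rfl⟩ := H.surj a
  obtain ⟨g, hg, rfl⟩ := H.surj b
  rw [← H.mul _ _ hf hg, ← H.mul _ _ hg hf, mul_comm]

theorem map_sub {f g : ℝ → ℂ} (hf : ContDiff ℝ ∞ f) (hg : ContDiff ℝ ∞ g) :
    φ (f - g) = φ f - φ g := by
  have h1 : f - g = f + (-1 : ℂ) • g := by
    rw [neg_one_smul, sub_eq_add_neg]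
  have h2 : ContDiff ℝ ∞ ((-1 : ℂ) • g) := (contDiff_const (c := (-1 : ℂ))).mul hg
  rw [h1, H.add f ((-1 : ℂ) • g) hf h2, H.smul _ _ hg, neg_one_smul, sub_eq_add_neg]

theorem map_X (c : ℂ) : φ (Xc c) = φ (Xc 0) - c • (1 : B) := by
  rw [← H.map_const, ← H.map_sub (contDiff_Xc 0) contDiff_const]
  congr 1
  funext s
  simp [Xc]

theorem isUnit_outside {c : ℂ} (hc : ∀ t ∈ Icc (0 : ℝ) 1, (t : ℂ) ≠ c) : IsUnit (φ (Xc c)) := by
  obtain ⟨h, hh, h1⟩ := exists_inv_outside hc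
  have h2 : φ (Xc c) * φ h = 1 := by
    rw [← H.mul _ _ (contDiff_Xc c) hh, ← H.map_one]
    exact H.congr _ _ ((contDiff_Xc c).mul hh) contDiff_const h1
  exact ⟨⟨φ (Xc c), φ h, h2, by rw [H.comm, h2]⟩, rfl⟩

/-- Hadamard's lemma pushed to `B`. -/
theorem hadamard {f : ℝ → ℂ} (hf : ContDiff ℝ ∞ f) (t : ℝ) :
    ∃ h : ℝ → ℂ, ContDiff ℝ ∞ h ∧ (∀ s, f s = f t + ((s : ℂ) - (t : ℂ)) * h s) ∧
      φ f = f t • (1 : B) + φ (Xc t) * φ h := by
  obtain ⟨h, h1, h2, -⟩ := Pool.Agent.H792R2.hadamard hf t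
  refine ⟨h, h1, h2, ?_⟩
  rw [← H.map_const, ← H.mul _ _ (contDiff_Xc _) h1,
    ← H.add (fun _ => f t) (Xc t * h) contDiff_const ((contDiff_Xc _).mul h1)]
  congr 1
  funext s
  simp only [Pi.add_apply, Pi.mul_apply, Xc]
  exact h2 s

theorem hadamard_zero {f : ℝ → ℂ} (hf : ContDiff ℝ ∞ f) {t : ℝ} (h0 : f t = 0) :
    ∃ h : ℝ → ℂ, ContDiff ℝ ∞ h ∧ φ f = φ (Xc t) * φ h := by
  obtain ⟨h, h1, -, h2⟩ := H.hadamard hf t
  exact ⟨h, h1, by rw [h2, h0, zero_smul, zero_add]⟩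

end Epi

/-- the hull -/
def hull (φ : (ℝ → ℂ) → B) : Set ℝ := {t | t ∈ Icc (0 : ℝ) 1 ∧ ¬ IsUnit (φ (Xc t))}

namespace Epi

variable {φ : (ℝ → ℂ) → B} (H : Epi φ)

include H

theorem isUnit_of_mul {a b : B} (h : IsUnit (a * b)) : IsUnit a := by
  obtain ⟨u, hu⟩ := h
  have h1 : a * (b * ↑u⁻¹) = 1 := by rw [← mul_assoc, ← hu]; simp
  exact ⟨⟨a, b * ↑u⁻¹, h1, by rw [H.comm, h1]⟩, rfl⟩

theorem mem_spectrum {t : ℝ} (ht : t ∈ hull φ) {f : ℝ → ℂ} (hf : ContDiff ℝ ∞ f) :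
    f t ∈ spectrum ℂ (φ f) := by
  rw [spectrum.mem_iff]
  intro hu
  obtain ⟨h, h1, -, h2⟩ := H.hadamard hf t
  rw [h2, Algebra.algebraMap_eq_smul_one, ← sub_sub, sub_self, zero_sub, IsUnit.neg_iff] at hu
  exact ht.2 (H.isUnit_of_mul hu)

theorem norm_apply_le [CompleteSpace B] {t : ℝ} (ht : t ∈ hull φ) {f : ℝ → ℂ} (hf : ContDiff ℝ ∞ f) :
    ‖f t‖ ≤ ‖φ f‖ * ‖(1 : B)‖ :=
  spectrum.norm_le_norm_mul_of_mem (H.mem_spectrum ht hf)

theorem apply_eq [CompleteSpace B] {t : ℝ} (ht : t ∈ hull φ) {f g : ℝ → ℂ} (hf : ContDiff ℝ ∞ f)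
    (hg : ContDiff ℝ ∞ g) (h : φ f = φ g) : f t = g t := by
  have h1 := H.norm_apply_le ht (hf.sub hg)
  rw [show φ (fun x => f x - g x) = φ (f - g) from rfl, H.map_sub hf hg, h, sub_self, norm_zero,
    zero_mul] at h1
  exact sub_eq_zero.1 (norm_le_zero_iff.1 h1)

theorem isUnit_of_ne_zero [CompleteSpace B] {g : ℝ → ℂ} (hg : ContDiff ℝ ∞ g)
    (h0 : ∀ t ∈ hull φ, g t ≠ 0) : IsUnit (φ g) := by
  by_contra hu
  let _ : NormedCommRing B := { ‹NormedRing B› with mul_comm := H.comm }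
  obtain ⟨χ, hχ⟩ := WeakDual.CharacterSpace.exists_apply_eq_zero (A := B) hu
  -- the point
  set c : ℂ := χ (φ (Xc 0)) with hc
  have h1 : χ (φ (Xc c)) = 0 := by
    rw [H.map_X c, _root_.map_sub, map_smul, _root_.map_one, ← hc]
    simp
  have h2 : ¬ IsUnit (φ (Xc c)) := by
    intro h
    have := h.map χ
    rw [h1] at this
    exact not_isUnit_zero this
  obtain ⟨t, ht, htc⟩ : ∃ t ∈ Icc (0 : ℝ) 1, (t : ℂ) = c := by
    by_contra hcon
    push Not at hcon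
    exact h2 (H.isUnit_outside hcon)
  rw [← htc] at h1 h2
  obtain ⟨h, hh, -, h3⟩ := H.hadamard hg t
  have h4 : χ (φ g) = g t := by
    rw [h3, _root_.map_add, map_smul, _root_.map_one, _root_.map_mul, h1, zero_mul, add_zero,
      smul_eq_mul, mul_one]
  exact h0 t ⟨ht, h2⟩ (h4.symm.trans hχ)

theorem quasinilpotent [CompleteSpace B] {g : ℝ → ℂ} (hg : ContDiff ℝ ∞ g)
    (h0 : ∀ t ∈ hull φ, g t = 0) (C : ℝ) (hC : 0 < C) :
    Tendsto (fun n : ℕ => C ^ n * ‖φ g ^ n‖) atTop (𝓝 0) := by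
  have hsp : ∀ z ∈ spectrum ℂ (φ g), z = 0 := by
    intro z hz
    by_contra hz0
    rw [spectrum.mem_iff] at hz
    apply hz
    rw [Algebra.algebraMap_eq_smul_one, ← H.map_const, ← H.map_sub contDiff_const hg]
    refine H.isUnit_of_ne_zero (contDiff_const.sub hg) fun t ht => ?_
    simp [h0 t ht, hz0]
  have hr : spectralRadius ℂ (φ g) = 0 := by
    refine le_antisymm ?_ bot_le
    unfold spectralRadius
    refine iSup₂_le fun z hz => ?_
    rw [hsp z hz]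
    simp
  have h1 := spectrum.pow_norm_pow_one_div_tendsto_nhds_spectralRadius (φ g)
  rw [hr] at h1
  have h2 : ∀ᶠ n : ℕ in atTop, ENNReal.ofReal (‖φ g ^ n‖ ^ (1 / n : ℝ)) < ENNReal.ofReal (1 / (2 * C)) :=
    h1.eventually_lt_const (by rw [ENNReal.ofReal_pos]; positivity)
  have h3 : ∀ᶠ n : ℕ in atTop, C ^ n * ‖φ g ^ n‖ ≤ (1 / 2 : ℝ) ^ n := by
    filter_upwards [h2, eventually_ge_atTop 1] with n hn hn1
    rw [ENNReal.ofReal_lt_ofReal_iff (by positivity)] at hn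
    have h4 : ‖φ g ^ n‖ ≤ (1 / (2 * C)) ^ n := by
      have h5 : (‖φ g ^ n‖ ^ (1 / n : ℝ)) ^ (n : ℝ) = ‖φ g ^ n‖ := by
        rw [← Real.rpow_mul (norm_nonneg _), one_div, inv_mul_cancel₀ (by positivity), Real.rpow_one]
      rw [← h5, ← Real.rpow_natCast (1 / (2 * C)) n]
      exact Real.rpow_le_rpow (by positivity) hn.le (by positivity)
    calc C ^ n * ‖φ g ^ n‖ ≤ C ^ n * (1 / (2 * C)) ^ n := by gcongr
      _ = (1 / 2 : ℝ) ^ n := by
        rw [← mul_pow]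
        congr 1
        field_simp
  refine squeeze_zero' (Eventually.of_forall fun n => by positivity) h3 ?_
  exact tendsto_pow_atTop_nhds_zero_of_lt_one (by norm_num) (by norm_num)

/-- the open mapping constant -/
theorem gleason [CompleteSpace B] (t : ℝ) : ∃ C : ℝ, 0 < C ∧ ∀ z : B, ∃ (b : B) (c : ℂ),
    φ (Xc t) * b + c • (1 : B) = z ∧ ‖b‖ ≤ C * ‖z‖ := by
  let T : B × ℂ →L[ℂ] B :=
    ((ContinuousLinearMap.mul ℂ B (φ (Xc t))).comp (ContinuousLinearMap.fst ℂ B ℂ)) +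
      ((ContinuousLinearMap.snd ℂ B ℂ).smulRight (1 : B))
  have hT : ∀ p : B × ℂ, T p = φ (Xc t) * p.1 + p.2 • (1 : B) := by
    intro p
    simp [T]
  have hs : Function.Surjective T := by
    intro z
    obtain ⟨f, hf, rfl⟩ := H.surj z
    obtain ⟨h, -, -, h2⟩ := H.hadamard hf t
    refine ⟨(φ h, f t), ?_⟩
    rw [hT, h2, add_comm]
  obtain ⟨C, hC, h⟩ := T.exists_preimage_norm_le hs
  refine ⟨C, hC, fun z => ?_⟩
  obtain ⟨p, hp, hp2⟩ := h z
  refine ⟨p.1, p.2, by rw [← hT, hp], (norm_fst_le p).trans hp2⟩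

end Epi

end Pool.Agent.H792R2
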