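import Mathlib
import Pool.Agent.H792R2.EpiA

set_option autoImplicit false

open MeasureTheory Set Filter Topology
open scoped ContDiff

namespace Pool.Agent.H792R2

variable {B : Type} [NormedRing B] [NormedAlgebra ℂ B] [CompleteSpace B]

/-- a function flat at `t` -/
noncomputable def flat (t : ℝ) : ℝ → ℂ := fun s => ((expNegInvGlue ((s - t) ^ 2) : ℝ) : ℂ)

theorem contDiff_flat (t : ℝ) : ContDiff ℝ ∞ (flat t) := by
  have h1 : ContDiff ℝ ∞ (fun s : ℝ => (s - t) ^ 2) := (contDiff_id.sub contDiff_const).pow 2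
  exact Complex.ofRealCLM.contDiff.comp ((expNegInvGlue.contDiff (n := ⊤)).comp h1)

theorem flat_ne_zero {t s : ℝ} (h : s ≠ t) : flat t s ≠ 0 := by
  unfold flat
  have h1 : 0 < (s - t) ^ 2 := by
    have : s - t ≠ 0 := sub_ne_zero.2 h
    positivity
  exact_mod_cast (expNegInvGlue.pos_of_pos h1).ne'

theorem tendsto_flat (t : ℝ) (n : ℕ) :
    Tendsto (fun s : ℝ => ‖flat t s‖ / |s - t| ^ n) (𝓝 t) (𝓝 0) := by
  have h1 : Tendsto (fun s : ℝ => (s - t) ^ 2) (𝓝 t) (𝓝 0) := by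
    have : Continuous (fun s : ℝ => (s - t) ^ 2) := by fun_prop
    simpa using this.tendsto t
  have h2 := (expNegInvGlue.tendsto_polynomial_inv_mul_zero (Polynomial.X ^ n)).comp h1
  have h3 : Tendsto (fun s : ℝ => |s - t| ^ n) (𝓝 t) (𝓝 (|t - t| ^ n)) := by
    have : Continuous (fun s : ℝ => |s - t| ^ n) := by fun_prop
    exact this.tendsto t
  have h4 := h2.mul h3
  rw [zero_mul] at h4
  refine h4.congr fun s => ?_
  simp only [Function.comp, Polynomial.eval_pow, Polynomial.eval_X]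
  unfold flat
  rw [Complex.norm_real, Real.norm_eq_abs, abs_of_nonneg (expNegInvGlue.nonneg _)]
  by_cases hs : s = t
  · subst hs
    rcases n with _ | n <;> simp
  · have h5 : |s - t| ≠ 0 := abs_ne_zero.2 (sub_ne_zero.2 hs)
    have h6 : (s - t) ^ 2 = |s - t| ^ 2 := (sq_abs _).symm
    rw [h6]
    have h7 : ((|s - t| ^ 2)⁻¹) ^ n * |s - t| ^ n = (|s - t| ^ n)⁻¹ := by
      rw [inv_pow, ← pow_mul, mul_comm 2 n, pow_mul]
      have h8 : |s - t| ^ n ≠ 0 := pow_ne_zero _ h5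
      field_simp
    rw [mul_right_comm, h7, div_eq_mul_inv, mul_comm]

namespace Epi

variable {φ : (ℝ → ℂ) → B} (H : Epi φ)

include H

/-- hull points are isolated -/
theorem not_accPt {t : ℝ} (ht : t ∈ hull φ) : ¬ AccPt t (𝓟 (hull φ)) := by
  intro hacc
  obtain ⟨C, hC, hG⟩ := H.gleason t
  have key : ∀ n : ℕ, ∃ f : ℝ → ℂ, ContDiff ℝ ∞ f ∧ ‖φ f‖ ≤ C ^ n * ‖φ (flat t)‖ ∧
      ∀ s ∈ hull φ, flat t s = ((s : ℂ) - t) ^ n * f s := by
    intro n
    induction n with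
    | zero => exact ⟨flat t, contDiff_flat t, by simp, by simp⟩
    | succ n ih =>
      obtain ⟨f, hf, hn, hs⟩ := ih
      -- `f t = 0`
      have hft : f t = 0 := by
        have hne : (𝓝[≠] t ⊓ 𝓟 (hull φ)).NeBot := hacc
        have hle : 𝓝[≠] t ⊓ 𝓟 (hull φ) ≤ 𝓝 t := inf_le_left.trans inf_le_left
        have h1 : Tendsto (fun s => ‖f s‖) (𝓝[≠] t ⊓ 𝓟 (hull φ)) (𝓝 ‖f t‖) :=
          (hf.continuous.norm.tendsto t).mono_left hle
        have h2 := (tendsto_flat t n).mono_left hle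
        have h3 : (fun s : ℝ => ‖flat t s‖ / |s - t| ^ n) =ᶠ[𝓝[≠] t ⊓ 𝓟 (hull φ)]
            fun s => ‖f s‖ := by
          have h4 : ∀ᶠ s in 𝓝[≠] t ⊓ 𝓟 (hull φ), s ≠ t :=
            (eventually_mem_nhdsWithin (s := {t}ᶜ)).filter_mono inf_le_left
          have h5 : ∀ᶠ s in 𝓝[≠] t ⊓ 𝓟 (hull φ), s ∈ hull φ :=
            (eventually_principal.2 fun s hs => hs).filter_mono inf_le_right
          filter_upwards [h4, h5] with s h6 h7
          have h8 : |s - t| ≠ 0 := abs_ne_zero.2 (sub_ne_zero.2 h6)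
          rw [hs s h7, norm_mul, norm_pow, ← Complex.ofReal_sub, Complex.norm_real,
            Real.norm_eq_abs]
          field_simp
        have h9 := tendsto_nhds_unique (h2.congr' h3) h1
        exact norm_eq_zero.1 h9.symm
      obtain ⟨b, c, hbc, hb⟩ := hG (φ f)
      obtain ⟨g, hg, rfl⟩ := H.surj b
      have hsm : ContDiff ℝ ∞ (Xc t * g + fun _ => c) :=
        ((contDiff_Xc _).mul hg).add contDiff_const
      have h1 : φ (Xc t * g + fun _ => c) = φ f := by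
        rw [H.add (Xc t * g) (fun _ => c) ((contDiff_Xc _).mul hg) contDiff_const,
          H.mul _ _ (contDiff_Xc _) hg, H.map_const, hbc]
      have hc : c = 0 := by
        have := H.apply_eq ht hsm hf h1
        rw [hft] at this
        simpa [Xc] using this
      refine ⟨g, hg, ?_, ?_⟩
      · calc ‖φ g‖ ≤ C * ‖φ f‖ := hb
          _ ≤ C * (C ^ n * ‖φ (flat t)‖) := by gcongr
          _ = C ^ (n + 1) * ‖φ (flat t)‖ := by ring
      · intro s hsm'
        have := H.apply_eq hsm' hsm hf h1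
        rw [hc] at this
        rw [hs s hsm', ← this]
        simp only [Pi.add_apply, Pi.mul_apply, Xc, add_zero]
        ring
  -- choose a hull point close to t
  have hclose : ∃ s ∈ hull φ, s ≠ t ∧ |s - t| < 1 / C := by
    have hne : (𝓝[≠] t ⊓ 𝓟 (hull φ)).NeBot := hacc
    have h4 : ∀ᶠ s in 𝓝[≠] t ⊓ 𝓟 (hull φ), s ≠ t :=
      (eventually_mem_nhdsWithin (s := {t}ᶜ)).filter_mono inf_le_left
    have h5 : ∀ᶠ s in 𝓝[≠] t ⊓ 𝓟 (hull φ), s ∈ hull φ :=
      (eventually_principal.2 fun s hs => hs).filter_mono inf_le_right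
    have h6 : ∀ᶠ s in 𝓝[≠] t ⊓ 𝓟 (hull φ), |s - t| < 1 / C := by
      have : ∀ᶠ s in 𝓝 t, |s - t| < 1 / C := by
        have h7 := Metric.ball_mem_nhds t (show 0 < 1 / C by positivity)
        filter_upwards [h7] with s hs
        rwa [Metric.mem_ball, Real.dist_eq] at hs
      exact this.filter_mono (inf_le_left.trans inf_le_left)
    obtain ⟨s, hs1, hs2, hs3⟩ := (h4.and (h5.and h6)).exists
    exact ⟨s, hs2, hs1, hs3⟩
  obtain ⟨s, hs, hst, hsC⟩ := hclose
  have hbound : ∀ n : ℕ, ‖flat t s‖ ≤ (|s - t| * C) ^ n * (‖φ (flat t)‖ * ‖(1 : B)‖) := by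
    intro n
    obtain ⟨f, hf, hn, hfs⟩ := key n
    rw [hfs s hs, norm_mul, norm_pow, ← Complex.ofReal_sub, Complex.norm_real, Real.norm_eq_abs]
    have h1 := H.norm_apply_le hs hf
    calc |s - t| ^ n * ‖f s‖ ≤ |s - t| ^ n * (‖φ f‖ * ‖(1 : B)‖) := by gcongr
      _ ≤ |s - t| ^ n * ((C ^ n * ‖φ (flat t)‖) * ‖(1 : B)‖) := by gcongr
      _ = (|s - t| * C) ^ n * (‖φ (flat t)‖ * ‖(1 : B)‖) := by rw [mul_pow]; ring
  have hlt : |s - t| * C < 1 := by rwa [lt_div_iff₀ hC] at hsC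
  have h0 : Tendsto (fun n : ℕ => (|s - t| * C) ^ n * (‖φ (flat t)‖ * ‖(1 : B)‖)) atTop
      (𝓝 (0 * (‖φ (flat t)‖ * ‖(1 : B)‖))) :=
    (tendsto_pow_atTop_nhds_zero_of_lt_one (by positivity) hlt).mul_const _
  rw [zero_mul] at h0
  have h1 : ‖flat t s‖ ≤ 0 := ge_of_tendsto' h0 hbound
  exact flat_ne_zero hst (norm_le_zero_iff.1 h1)

theorem isCompact_hull : IsCompact (hull φ) := by
  have h1 : hull φ = Icc 0 1 ∩ {t : ℝ | ¬ IsUnit (φ (Xc t))} := rfl
  rw [h1]
  apply isCompact_Icc.inter_right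
  have h2 : {t : ℝ | ¬ IsUnit (φ (Xc t))} =
      (fun t : ℝ => φ (Xc 0) - (t : ℂ) • (1 : B)) ⁻¹' {b : B | IsUnit b}ᶜ := by
    ext t
    rw [mem_preimage, mem_compl_iff, mem_ofPred_eq, mem_ofPred_eq, H.map_X t]
  rw [h2]
  apply IsClosed.preimage
  · fun_prop
  · exact (Units.isOpen (R := B)).isClosed_compl

theorem finite_hull : (hull φ).Finite := by
  by_contra hinf
  obtain ⟨t, ht, hacc⟩ := Set.Infinite.exists_accPt_of_subset_isCompact hinf H.isCompact_hull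
    Subset.rfl
  exact H.not_accPt ht hacc

/-- separation of a hull point from the others -/
theorem exists_sep {t : ℝ} : ∃ δ > 0, ∀ s ∈ hull φ, s ≠ t → δ < |s - t| := by
  have hfin : (hull φ \ {t}).Finite := H.finite_hull.subset sdiff_subset
  have h1 : IsClosed (hull φ \ {t}) := hfin.isClosed
  have h2 : t ∉ hull φ \ {t} := fun h => h.2 rfl
  obtain ⟨δ, hδ, hb⟩ := Metric.isOpen_iff.1 h1.isOpen_compl t h2
  refine ⟨δ / 2, by positivity, fun s hs hst => ?_⟩
  by_contra hcon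
  rw [not_lt] at hcon
  have : s ∈ Metric.ball t δ := by
    rw [Metric.mem_ball, Real.dist_eq]; linarith
  exact hb this ⟨hs, hst⟩

theorem good {t : ℝ} (ht : t ∈ hull φ) : ∃ (n : ℕ) (α : ℝ → ℂ), ContDiff ℝ ∞ α ∧ α t ≠ 0 ∧
    φ (Xc t) ^ n * φ α = 0 := by
  by_contra hbad
  push Not at hbad
  have hbad' : ∀ (n : ℕ) (α : ℝ → ℂ), ContDiff ℝ ∞ α → φ (Xc t) ^ n * φ α = 0 → α t = 0 := by
    intro n α hα h
    by_contra h0
    exact hbad n α hα h0 h
  clear hbad
  set y := φ (Xc t) with hy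
  obtain ⟨C, hC, hG⟩ := H.gleason t
  rw [← hy] at hG
  -- annihilators are divisible
  have hb : ∀ (m : ℕ) (a : B), y * a = 0 → ∃ b, a = y ^ m * b ∧ y ^ (m + 1) * b = 0 := by
    intro m a ha
    induction m with
    | zero => exact ⟨a, by simp, by simpa using ha⟩
    | succ m ih =>
      obtain ⟨b, hb1, hb2⟩ := ih
      obtain ⟨β, hβ, rfl⟩ := H.surj b
      have h0 := hbad' (m + 1) β hβ hb2
      obtain ⟨h, hh, hh2⟩ := H.hadamard_zero hβ h0
      rw [← hy] at hh2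
      refine ⟨φ h, ?_, ?_⟩
      · rw [hb1, hh2, ← mul_assoc, ← pow_succ]
      · rw [pow_succ y (m + 1), mul_assoc, ← hh2, hb2]
  -- the intersection of the powers
  let J : Set B := {z | ∀ n : ℕ, ∃ b, z = y ^ n * b}
  have hJ : ∀ z ∈ J, ∀ b, z = y * b → b ∈ J := by
    intro z hz b hzb n
    obtain ⟨b', hb'⟩ := hz (n + 1)
    have h1 : y * (b - y ^ n * b') = 0 := by
      rw [mul_sub, ← mul_assoc, ← pow_succ', ← hb', ← hzb, sub_self]
    obtain ⟨b'', hb'', -⟩ := hb n _ h1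
    refine ⟨b'' + b', ?_⟩
    rw [mul_add, ← hb'']
    abel
  -- evaluation at `t` of elements of `y B`
  have hev : ∀ (z b : B) (c : ℂ), (∃ b', z = y * b') → y * b + c • (1 : B) = z → c = 0 := by
    rintro z b c ⟨b', rfl⟩ h
    obtain ⟨β, hβ, rfl⟩ := H.surj b
    obtain ⟨β', hβ', rfl⟩ := H.surj b'
    have h1 : φ (Xc t * β + fun _ => c) = φ (Xc t * β') := by
      rw [H.add (Xc t * β) (fun _ => c) ((contDiff_Xc _).mul hβ) contDiff_const,
        H.mul _ _ (contDiff_Xc _) hβ, H.mul _ _ (contDiff_Xc _) hβ', H.map_const, h]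
    have := H.apply_eq ht (((contDiff_Xc _).mul hβ).add contDiff_const)
      ((contDiff_Xc _).mul hβ') h1
    simpa [Xc] using this
  have hdiv : ∀ z ∈ J, ∀ n : ℕ, ∃ b ∈ J, z = y ^ n * b ∧ ‖b‖ ≤ C ^ n * ‖z‖ := by
    intro z hz n
    induction n with
    | zero => exact ⟨z, hz, by simp, by simp⟩
    | succ n ih =>
      obtain ⟨b, hbJ, hb1, hb2⟩ := ih
      obtain ⟨b', c, h1, h2⟩ := hG b
      obtain ⟨b'', hb''⟩ := hbJ 1
      rw [pow_one] at hb''
      have hc := hev b b' c ⟨b'', hb''⟩ h1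
      rw [hc, zero_smul, add_zero] at h1
      refine ⟨b', hJ b hbJ b' h1.symm, ?_, ?_⟩
      · rw [hb1, ← h1, ← mul_assoc, ← pow_succ]
      · calc ‖b'‖ ≤ C * ‖b‖ := h2
          _ ≤ C * (C ^ n * ‖z‖) := by gcongr
          _ = C ^ (n + 1) * ‖z‖ := by ring
  -- bumps
  obtain ⟨δ, hδ, hsep⟩ := H.exists_sep (t := t)
  obtain ⟨ρ, hρ1, hρ2, hρ3, hρ4⟩ := exists_bump t (r := δ / 2) (R := δ) (by positivity) (by linarith)
  obtain ⟨σ, hσ1, hσ2, hσ3, hσ4⟩ := exists_bump t (r := δ / 4) (R := δ / 2) (by positivity) (by linarith)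
  set E := φ (fun s => (ρ s : ℂ)) with hE
  set F := φ (fun s => (σ s : ℂ)) with hF
  have hEF : E * F = F := by
    rw [hE, hF, ← H.mul _ _ hρ1 hσ1]
    congr 1
    funext s
    simp only [Pi.mul_apply]
    by_cases hs : |s - t| ≤ δ / 2
    · rw [hρ3 s hs]; simp
    · have : (σ s : ℂ) = 0 := by
        by_contra h0
        have h1 : s ∈ tsupport (fun s => (σ s : ℂ)) := subset_tsupport _ h0
        have h2 := hσ4 h1
        rw [Metric.mem_closedBall, Real.dist_eq] at h2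
        exact hs h2
      rw [this, mul_zero]
  have hEnF : ∀ n : ℕ, E ^ n * F = F := by
    intro n
    induction n with
    | zero => simp
    | succ n ih => rw [pow_succ, mul_assoc, hEF, ih]
  have hyE : y * E = φ (Xc t * fun s => (ρ s : ℂ)) := by rw [H.mul _ _ (contDiff_Xc _) hρ1]
  have hq : Tendsto (fun n : ℕ => C ^ n * ‖(y * E) ^ n‖) atTop (𝓝 0) := by
    rw [hyE]
    refine H.quasinilpotent ((contDiff_Xc _).mul hρ1) (fun s hs => ?_) C hC
    by_cases hst : s = t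
    · subst hst
      simp [Xc]
    · have h1 := hsep s hs hst
      have : (ρ s : ℂ) = 0 := by
        by_contra h0
        have h1 : s ∈ tsupport (fun s => (ρ s : ℂ)) := subset_tsupport _ h0
        have h2 := hρ4 h1
        rw [Metric.mem_closedBall, Real.dist_eq] at h2
        linarith
      simp [this]
  have hpow : ∀ n : ℕ, y ^ n * F = (y * E) ^ n * F := by
    intro n
    have hc : Commute y E := H.comm y E
    rw [hc.mul_pow, mul_assoc, hEnF]
  have hJF : ∀ z ∈ J, z * F = 0 := by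
    intro z hz
    have h1 : ∀ n : ℕ, ‖z * F‖ ≤ C ^ n * ‖(y * E) ^ n‖ * (‖z‖ * ‖F‖) := by
      intro n
      obtain ⟨b, -, hb1, hb2⟩ := hdiv z hz n
      have e : z * F = (y * E) ^ n * F * b := by
        rw [← hpow]
        conv_lhs => rw [hb1]
        rw [mul_assoc, H.comm b F, ← mul_assoc]
      rw [e]
      calc ‖(y * E) ^ n * F * b‖ ≤ ‖(y * E) ^ n * F‖ * ‖b‖ := norm_mul_le _ _
        _ ≤ (‖(y * E) ^ n‖ * ‖F‖) * (C ^ n * ‖z‖) := by
          gcongr
          exact norm_mul_le _ _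
        _ = _ := by ring
    have h2 : Tendsto (fun n : ℕ => C ^ n * ‖(y * E) ^ n‖ * (‖z‖ * ‖F‖)) atTop
        (𝓝 (0 * (‖z‖ * ‖F‖))) := hq.mul_const _
    rw [zero_mul] at h2
    exact norm_le_zero_iff.1 (ge_of_tendsto' h2 h1)
  have h1F : ∃ b, 1 - F = y * b := by
    have hsm : ContDiff ℝ ∞ ((fun _ => (1 : ℂ)) - fun s => (σ s : ℂ)) := contDiff_const.sub hσ1
    obtain ⟨h, -, h2⟩ := H.hadamard_zero (t := t) hsm (by
      simp [hσ3 t (by simp; positivity)])
    refine ⟨φ h, ?_⟩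
    rw [← H.map_one, hF, ← H.map_sub contDiff_const hσ1, h2]
  have hann : ∀ z : B, y * z = 0 → z = 0 := by
    intro z hz
    have hzJ : z ∈ J := fun n => by
      obtain ⟨b, hb1, -⟩ := hb n z hz
      exact ⟨b, hb1⟩
    have h2 := hJF z hzJ
    obtain ⟨b, hb⟩ := h1F
    have h3 : z * (1 - F) = 0 := by
      rw [hb, ← mul_assoc, H.comm z y, hz, zero_mul]
    rw [mul_sub, mul_one, h2, sub_zero] at h3
    exact h3
  have hbelow : ∀ b : B, ‖b‖ ≤ C * ‖y * b‖ := by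
    intro b
    obtain ⟨b', c, h1, h2⟩ := hG (y * b)
    have hc := hev (y * b) b' c ⟨b, rfl⟩ h1
    rw [hc, zero_smul, add_zero] at h1
    have h3 : b' = b := by
      have := hann (b' - b) (by rw [mul_sub, h1, sub_self])
      exact sub_eq_zero.1 this
    rwa [h3] at h2
  have hbelow' : ∀ (n : ℕ) (b : B), ‖b‖ ≤ C ^ n * ‖y ^ n * b‖ := by
    intro n b
    induction n with
    | zero => simp
    | succ n ih =>
      calc ‖b‖ ≤ C ^ n * ‖y ^ n * b‖ := ih
        _ ≤ C ^ n * (C * ‖y * (y ^ n * b)‖) := by gcongr; exact hbelow _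
        _ = C ^ (n + 1) * ‖y ^ (n + 1) * b‖ := by rw [pow_succ' y, mul_assoc y]; ring
  have hF0 : F = 0 := by
    have h1 : ∀ n : ℕ, ‖F‖ ≤ C ^ n * ‖(y * E) ^ n‖ * ‖F‖ := by
      intro n
      calc ‖F‖ ≤ C ^ n * ‖y ^ n * F‖ := hbelow' n F
        _ = C ^ n * ‖(y * E) ^ n * F‖ := by rw [hpow]
        _ ≤ C ^ n * (‖(y * E) ^ n‖ * ‖F‖) := by gcongr; exact norm_mul_le _ _
        _ = _ := by ring
    have h2 : Tendsto (fun n : ℕ => C ^ n * ‖(y * E) ^ n‖ * ‖F‖) atTop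
        (𝓝 (0 * ‖F‖)) := hq.mul_const _
    rw [zero_mul] at h2
    exact norm_le_zero_iff.1 (ge_of_tendsto' h2 h1)
  have h3 := H.norm_apply_le ht hσ1
  rw [← hF, hF0, norm_zero, zero_mul, hσ3 t (by simp; positivity)] at h3
  norm_num at h3

/-- a product of finitely many `X - t` is killed -/
theorem exists_list : ∃ L : List ℝ, (∀ t ∈ L, t ∈ Icc (0 : ℝ) 1) ∧
    (L.map fun t : ℝ => φ (Xc (t : ℂ))).prod = 0 := by
  classical
  have hg := fun (t : ℝ) (ht : t ∈ hull φ) => H.good ht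
  choose! n α hα hα0 hn using hg
  -- bumps
  have hbump : ∀ t ∈ hull φ, ∃ β : ℝ → ℝ, ContDiff ℝ ∞ (fun s => (β s : ℂ)) ∧ (∀ s, 0 ≤ β s) ∧
      β t = 1 ∧ φ (Xc t) ^ n t * φ (fun s => (β s : ℂ)) = 0 := by
    intro t ht
    have h1 : ∀ᶠ s in 𝓝 t, α t s ≠ 0 :=
      (hα t ht).continuous.continuousAt.eventually_ne (hα0 t ht)
    obtain ⟨δ, hδ, hδ2⟩ := Metric.eventually_nhds_iff_ball.1 h1
    obtain ⟨β, hβ1, hβ2, hβ3, hβ4⟩ := exists_bump t (r := δ / 4) (R := δ / 2) (by positivity)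
      (by linarith)
    refine ⟨β, hβ1, hβ2, hβ3 t (by simp; positivity), ?_⟩
    have hsm := contDiff_div_of_tsupport hβ1 (hα t ht) (fun s hs => by
      apply hδ2
      have := hβ4 hs
      rw [Metric.mem_closedBall] at this
      rw [Metric.mem_ball]
      linarith)
    have h2 : φ (fun s => (β s : ℂ)) = φ (α t) * φ (fun s => (β s : ℂ) / α t s) := by
      rw [← H.mul _ _ (hα t ht) hsm]
      congr 1
      funext s
      simp only [Pi.mul_apply]
      by_cases hs : α t s = 0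
      · have : (β s : ℂ) = 0 := by
          by_contra h0
          have h3 : s ∈ tsupport (fun s => (β s : ℂ)) := subset_tsupport _ h0
          have h4 := hβ4 h3
          rw [Metric.mem_closedBall] at h4
          exact hδ2 s (by rw [Metric.mem_ball]; linarith) hs
        rw [hs, this]; simp
      · field_simp
    rw [h2, ← mul_assoc, hn t ht, zero_mul]
  choose! β hβ1 hβ2 hβ3 hβ4 using hbump
  set K : Finset ℝ := H.finite_hull.toFinset with hK
  have hKm : ∀ t, t ∈ K ↔ t ∈ hull φ := fun t => by simp [hK]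
  -- the sum of bumps is a unit
  have hsum : ∀ S : Finset ℝ, S ⊆ K → ContDiff ℝ ∞ (fun s => ∑ t ∈ S, (β t s : ℂ)) ∧
      φ (fun s => ∑ t ∈ S, (β t s : ℂ)) = ∑ t ∈ S, φ (fun s => (β t s : ℂ)) := by
    intro S hS
    induction S using Finset.induction_on with
    | empty => exact ⟨by simpa using contDiff_const, by simpa using H.map_zero⟩
    | insert a S ha ih =>
      obtain ⟨h1, h2⟩ := ih ((Finset.subset_insert _ _).trans hS)
      have haK : a ∈ hull φ := (hKm a).1 (hS (Finset.mem_insert_self _ _))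
      have h3 : (fun s => ∑ t ∈ insert a S, (β t s : ℂ)) =
          (fun s => (β a s : ℂ)) + fun s => ∑ t ∈ S, (β t s : ℂ) := by
        funext s
        rw [Finset.sum_insert ha]
        rfl
      rw [h3, Finset.sum_insert ha, H.add _ _ (hβ1 a haK) h1, h2]
      exact ⟨(hβ1 a haK).add h1, rfl⟩
  obtain ⟨hψ1, hψ2⟩ := hsum K Finset.Subset.rfl
  have hunit : IsUnit (φ (fun s => ∑ t ∈ K, (β t s : ℂ))) := by
    refine H.isUnit_of_ne_zero hψ1 fun s hs => ?_
    have h1 : (0 : ℝ) < ∑ t ∈ K, β t s := by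
      refine Finset.sum_pos' (fun t ht => hβ2 t ((hKm t).1 ht) s) ⟨s, (hKm s).2 hs, ?_⟩
      rw [hβ3 s hs]; exact one_pos
    have h2 : (∑ t ∈ K, (β t s : ℂ)) = ((∑ t ∈ K, β t s : ℝ) : ℂ) := by push_cast; rfl
    rw [h2]
    exact_mod_cast h1.ne'
  let L : List ℝ := K.toList.flatMap fun t => List.replicate (n t) t
  refine ⟨L, ?_, ?_⟩
  · intro t ht
    simp only [L, List.mem_flatMap, Finset.mem_toList] at ht
    obtain ⟨s, hs, hts⟩ := ht
    rw [List.eq_of_mem_replicate hts]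
    exact ((hKm s).1 hs).1
  · -- each bump is killed
    set Q := (L.map fun t : ℝ => φ (Xc (t : ℂ))).prod with hQ
    have hQt : ∀ t ∈ K, Q * φ (fun s => (β t s : ℂ)) = 0 := by
      intro t ht
      let _ : CommRing B := { ‹NormedRing B› with mul_comm := H.comm }
      have h1 : φ (Xc t) ^ n t ∣ Q := by
        rw [hQ]
        have h2 : (L.map fun t : ℝ => φ (Xc (t : ℂ))).prod =
            (K.toList.map fun t : ℝ => φ (Xc (t : ℂ)) ^ n t).prod := by
          simp only [L]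
          induction K.toList with
          | nil => simp
          | cons a l ih => simp [ih]
        rw [h2]
        exact List.dvd_prod (List.mem_map.2 ⟨t, Finset.mem_toList.2 ht, rfl⟩)
      obtain ⟨r, hr⟩ := h1
      rw [hr, mul_assoc, H.comm r, ← mul_assoc, hβ4 t ((hKm t).1 ht), zero_mul]
    have h1 : Q * φ (fun s => ∑ t ∈ K, (β t s : ℂ)) = 0 := by
      rw [hψ2, Finset.mul_sum]
      exact Finset.sum_eq_zero hQt
    obtain ⟨u, hu⟩ := hunit
    rw [← hu] at h1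
    exact (Units.mul_left_eq_zero u).1 h1

end Epi

/-- the seminorm `sup |f^(k)|` on `[0,1]` -/
noncomputable def sn (k : ℕ) (f : ℝ → ℂ) : ℝ :=
  sSup ((fun x : ℝ => ‖iteratedDeriv k f x‖) '' Set.Icc (0 : ℝ) 1)

theorem le_sn {f : ℝ → ℂ} (hf : ContDiff ℝ ∞ f) (k : ℕ) {x : ℝ} (hx : x ∈ Icc (0 : ℝ) 1) :
    ‖iteratedDeriv k f x‖ ≤ sn k f := by
  apply le_csSup
  · apply IsCompact.bddAbove
    apply isCompact_Icc.image
    exact (hf.continuous_iteratedDeriv k (by exact_mod_cast le_top)).norm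
  · exact ⟨x, hx, rfl⟩

theorem sn_nonneg (k : ℕ) (f : ℝ → ℂ) : 0 ≤ sn k f := by
  apply Real.sSup_nonneg
  rintro _ ⟨x, -, rfl⟩
  exact norm_nonneg _

theorem sn_le {f : ℝ → ℂ} (k : ℕ) {M : ℝ} (h : ∀ x ∈ Icc (0 : ℝ) 1, ‖iteratedDeriv k f x‖ ≤ M) :
    sn k f ≤ M := by
  apply csSup_le
  · exact ⟨_, 0, by simp, rfl⟩
  · rintro _ ⟨x, hx, rfl⟩
    exact h x hx

namespace Epi

variable {φ : (ℝ → ℂ) → B} (H : Epi φ)

include H

theorem newton (L : List ℝ) (hL : ∀ t ∈ L, t ∈ Icc (0 : ℝ) 1) : ∃ C : ℝ, 0 ≤ C ∧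
    ∀ f : ℝ → ℂ, ContDiff ℝ ∞ f → ∃ (r : B) (h : ℝ → ℂ), ContDiff ℝ ∞ h ∧
      φ f = r + (L.map fun t : ℝ => φ (Xc (t : ℂ))).prod * φ h ∧
      ‖r‖ ≤ C * ∑ k ∈ Finset.range L.length, sn k f := by
  induction L with
  | nil => exact ⟨0, le_refl _, fun f hf => ⟨0, f, hf, by simp, by simp⟩⟩
  | cons t L ih =>
    obtain ⟨C, hC, hih⟩ := ih fun s hs => hL s (List.mem_cons_of_mem _ hs)
    have ht := hL t List.mem_cons_self
    refine ⟨‖(1 : B)‖ + ‖φ (Xc t)‖ * C, by positivity, fun f hf => ?_⟩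
    obtain ⟨h, hh, hf2, hb⟩ := Pool.Agent.H792R2.hadamard hf t
    have hφf : φ f = f t • (1 : B) + φ (Xc t) * φ h := by
      rw [← H.map_const, ← H.mul _ _ (contDiff_Xc _) hh,
        ← H.add (fun _ => f t) (Xc t * h) contDiff_const ((contDiff_Xc _).mul hh)]
      congr 1
      funext s
      simp only [Pi.add_apply, Pi.mul_apply, Xc]
      exact hf2 s
    obtain ⟨r, h', hh', h1, h2⟩ := hih h hh
    refine ⟨f t • (1 : B) + φ (Xc t) * r, h', hh', ?_, ?_⟩
    · rw [hφf, h1, List.map_cons, List.prod_cons, mul_add, ← add_assoc, ← mul_assoc]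
    · have h3 : ∀ k, sn k h ≤ sn (k + 1) f := fun k =>
        sn_le k (hb ht k _ fun x hx => le_sn hf (k + 1) hx)
      have h4 : ‖f t‖ ≤ sn 0 f := by
        have := le_sn hf 0 ht
        simpa using this
      have h5 : ∑ k ∈ Finset.range L.length, sn k h ≤
          ∑ k ∈ Finset.range L.length, sn (k + 1) f := Finset.sum_le_sum fun k _ => h3 k
      have h6 : 0 ≤ ∑ k ∈ Finset.range L.length, sn (k + 1) f :=
        Finset.sum_nonneg fun k _ => sn_nonneg _ _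
      rw [List.length_cons, Finset.sum_range_succ']
      calc ‖f t • (1 : B) + φ (Xc t) * r‖ ≤ ‖f t • (1 : B)‖ + ‖φ (Xc t) * r‖ := norm_add_le _ _
        _ ≤ ‖f t‖ * ‖(1 : B)‖ + ‖φ (Xc t)‖ * ‖r‖ := by
          gcongr
          · exact norm_smul_le _ _
          · exact norm_mul_le _ _
        _ ≤ sn 0 f * ‖(1 : B)‖ + ‖φ (Xc t)‖ * (C * ∑ k ∈ Finset.range L.length, sn (k + 1) f) := by
          gcongr
          exact h2.trans (by gcongr)
        _ ≤ (‖(1 : B)‖ + ‖φ (Xc t)‖ * C) *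
            (∑ k ∈ Finset.range L.length, sn (k + 1) f + sn 0 f) := by
          have h7 : 0 ≤ sn 0 f := sn_nonneg _ _
          have h8 : 0 ≤ ‖(1 : B)‖ * ∑ k ∈ Finset.range L.length, sn (k + 1) f := by positivity
          have h9 : 0 ≤ ‖φ (Xc t)‖ * C * sn 0 f := by positivity
          nlinarith

theorem main : ∃ n : ℕ, ∃ C : ℝ, ∀ f : ℝ → ℂ, ContDiff ℝ ∞ f →
    ‖φ f‖ ≤ C * ∑ k ∈ Finset.range (n + 1), sn k f := by
  obtain ⟨L, hL1, hL2⟩ := H.exists_list
  obtain ⟨C, hC, hN⟩ := H.newton L hL1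
  refine ⟨L.length, C, fun f hf => ?_⟩
  obtain ⟨r, h, -, h1, h2⟩ := hN f hf
  rw [hL2, zero_mul, add_zero] at h1
  rw [h1]
  refine h2.trans ?_
  gcongr
  · exact fun _ _ _ => sn_nonneg _ _
  · omega

end Epi

end Pool.Agent.H792R2
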