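import Mathlib

/-!
A James type theorem.  If every continuous linear functional on a real normed space attains its
norm on the closed unit ball, then every bounded sequence of functionals has a pointwise
convergent subsequence.
-/

open Filter Topology Set

namespace Pool.Agent.H792R2.JamesA

universe u

variable {E : Type u} [NormedAddCommGroup E] [NormedSpace ℝ E]

/-- upper bounds for `sup_{‖x‖ ≤ 1} limsup_k (g x - f_k x)` along the filter `F` -/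
def U (f : ℕ → (E →L[ℝ] ℝ)) (F : Filter ℕ) (g : E →L[ℝ] ℝ) : Set ℝ :=
  {t | ∀ x : E, ‖x‖ ≤ 1 → ∀ᶠ k in F, g x - f k x ≤ t}

/-- `sup_{‖x‖ ≤ 1} limsup_k (g x - f_k x)` along the filter `F` -/
noncomputable def Phi (f : ℕ → (E →L[ℝ] ℝ)) (F : Filter ℕ) (g : E →L[ℝ] ℝ) : ℝ :=
  sInf (U f F g)

variable {f : ℕ → (E →L[ℝ] ℝ)} {F G : Filter ℕ} {g h : E →L[ℝ] ℝ} {t : ℝ}

theorem abs_le_of (g : E →L[ℝ] ℝ) {x : E} (hx : ‖x‖ ≤ 1) : |g x| ≤ ‖g‖ := by
  have h1 := g.le_opNorm x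
  rw [Real.norm_eq_abs] at h1
  exact h1.trans (mul_le_of_le_one_right (norm_nonneg _) hx)

theorem mem_U (hf : ∀ n, ‖f n‖ ≤ 1) : ‖g‖ + 1 ∈ U f F g := by
  intro x hx
  refine Eventually.of_forall fun k => ?_
  have h1 := abs_le.1 (abs_le_of g hx)
  have h2 := abs_le.1 ((abs_le_of (f k) hx).trans (hf k))
  linarith [h1.2, h2.1]

theorem U_nonneg [F.NeBot] (h : t ∈ U f F g) : 0 ≤ t := by
  obtain ⟨k, hk⟩ := (h 0 (by simp)).exists
  simpa using hk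

theorem U_bdd [F.NeBot] : BddBelow (U f F g) := ⟨0, fun _ h => U_nonneg h⟩

theorem U_up {s : ℝ} (h : t ∈ U f F g) (hs : t ≤ s) : s ∈ U f F g :=
  fun x hx => (h x hx).mono fun _ hk => hk.trans hs

theorem Phi_nonneg [F.NeBot] (hf : ∀ n, ‖f n‖ ≤ 1) : 0 ≤ Phi f F g :=
  le_csInf ⟨_, mem_U hf⟩ fun _ h => U_nonneg h

theorem mem_U_of_lt (hf : ∀ n, ‖f n‖ ≤ 1) (h : Phi f F g < t) : t ∈ U f F g := by
  obtain ⟨s, hs, hst⟩ := exists_lt_of_csInf_lt ⟨_, mem_U hf⟩ h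
  exact U_up hs hst.le

theorem exists_of_lt [F.NeBot] (h : t < Phi f F g) :
    ∃ x : E, ‖x‖ ≤ 1 ∧ ∃ᶠ k in F, t < g x - f k x := by
  have h1 : t ∉ U f F g := fun h' => absurd (csInf_le U_bdd h') (not_le.2 h)
  unfold U at h1
  simp only [mem_setOf_eq, not_forall] at h1
  obtain ⟨x, hx, h2⟩ := h1
  refine ⟨x, hx, ?_⟩
  rw [Filter.not_eventually] at h2
  exact h2.mono fun k hk => not_le.1 hk

theorem Phi_anti [G.NeBot] (hf : ∀ n, ‖f n‖ ≤ 1) (hGF : G ≤ F) : Phi f G g ≤ Phi f F g :=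
  csInf_le_csInf U_bdd ⟨_, mem_U hf⟩ fun _ ht x hx => hGF (ht x hx)

theorem Phi_lip [F.NeBot] (hf : ∀ n, ‖f n‖ ≤ 1) : Phi f F g ≤ Phi f F h + ‖g - h‖ := by
  refine le_of_forall_pos_le_add fun ε hε => ?_
  refine csInf_le U_bdd ?_
  intro x hx
  have h1 : Phi f F h + ε ∈ U f F h := mem_U_of_lt hf (by linarith)
  refine (h1 x hx).mono fun k hk => ?_
  have h2 := (abs_le.1 (abs_le_of (g - h) hx)).2
  simp only [ContinuousLinearMap.sub_apply] at h2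
  linarith

/-- The stability property. -/
def Q (f : ℕ → (E →L[ℝ] ℝ)) (F : Filter ℕ) (g : E →L[ℝ] ℝ) (ε : ℝ) : Prop :=
  ∃ z : E, ‖z‖ ≤ 1 ∧ ∃ l : ℝ, Tendsto (fun k => f k z) F (𝓝 l) ∧ Phi f F g - ε ≤ g z - l

theorem Q_mono [G.NeBot] (hf : ∀ n, ‖f n‖ ≤ 1) (hGF : G ≤ F) {ε : ℝ} (h : Q f F g ε) :
    Q f G g ε := by
  obtain ⟨z, hz, l, hl, h1⟩ := h
  exact ⟨z, hz, l, hl.mono_left hGF, (sub_le_sub_right (Phi_anti hf hGF) _).trans h1⟩

theorem Q_exists [F.NeBot] [F.IsCountablyGenerated] (hf : ∀ n, ‖f n‖ ≤ 1) (g : E →L[ℝ] ℝ)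
    {ε : ℝ} (hε : 0 < ε) :
    ∃ G : Filter ℕ, G.NeBot ∧ G.IsCountablyGenerated ∧ G ≤ F ∧ Q f G g ε := by
  obtain ⟨z, hz, h1⟩ := exists_of_lt (f := f) (F := F) (g := g) (t := Phi f F g - ε) (by linarith)
  set A : Set ℕ := {k | Phi f F g - ε < g z - f k z} with hA
  have hne : (F ⊓ 𝓟 A).NeBot := by
    rw [← Filter.frequently_mem_iff_neBot]
    exact h1
  have hc : IsCompact (Icc (-1 : ℝ) 1) := isCompact_Icc
  have hle : Filter.map (fun k => f k z) (F ⊓ 𝓟 A) ≤ 𝓟 (Icc (-1 : ℝ) 1) := by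
    rw [le_principal_iff, mem_map]
    refine Filter.univ_mem' fun k => ?_
    have := abs_le.1 ((abs_le_of (f k) hz).trans (hf k))
    exact ⟨this.1, this.2⟩
  obtain ⟨l, -, hl⟩ := hc.exists_clusterPt hle
  refine ⟨(F ⊓ 𝓟 A) ⊓ comap (fun k => f k z) (𝓝 l), ?_, inferInstance,
    inf_le_left.trans inf_le_left, z, hz, l, ?_, ?_⟩
  · rw [ClusterPt, inf_comm] at hl
    rw [← Filter.map_neBot_iff (fun k => f k z)]
    rw [Filter.push_pull]
    exact hl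
  · exact tendsto_comap.mono_left inf_le_right
  · have hne2 : ((F ⊓ 𝓟 A) ⊓ comap (fun k => f k z) (𝓝 l)).NeBot := by
      rw [ClusterPt, inf_comm] at hl
      rw [← Filter.map_neBot_iff (fun k => f k z), Filter.push_pull]
      exact hl
    have h2 : Phi f ((F ⊓ 𝓟 A) ⊓ comap (fun k => f k z) (𝓝 l)) g ≤ Phi f F g :=
      Phi_anti hf (inf_le_left.trans inf_le_left)
    have h3 : Tendsto (fun k => g z - f k z) ((F ⊓ 𝓟 A) ⊓ comap (fun k => f k z) (𝓝 l))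
        (𝓝 (g z - l)) := tendsto_const_nhds.sub (tendsto_comap.mono_left inf_le_right)
    have h4 : ∀ᶠ k in ((F ⊓ 𝓟 A) ⊓ comap (fun k => f k z) (𝓝 l)), Phi f F g - ε ≤ g z - f k z := by
      have : A ∈ ((F ⊓ 𝓟 A) ⊓ comap (fun k => f k z) (𝓝 l)) :=
        (inf_le_left.trans inf_le_right : _ ≤ 𝓟 A) (mem_principal_self A)
      filter_upwards [this] with k hk using le_of_lt hk
    have h5 := ge_of_tendsto h3 h4
    linarith

/-- simultaneous stabilisation -/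
theorem Q_seq (hf : ∀ n, ‖f n‖ ≤ 1) (d : ℕ → (E →L[ℝ] ℝ)) :
    ∃ G : Filter ℕ, G.NeBot ∧ G.IsCountablyGenerated ∧ G ≤ atTop ∧
      ∀ i j : ℕ, Q f G (d i) (1 / ((j : ℝ) + 1)) := by
  classical
  have step : ∀ (p : ℕ) (F : {F : Filter ℕ // F.NeBot ∧ F.IsCountablyGenerated}),
      ∃ G : {F : Filter ℕ // F.NeBot ∧ F.IsCountablyGenerated}, G.1 ≤ F.1 ∧
        Q f G.1 (d p.unpair.1) (1 / ((p.unpair.2 : ℝ) + 1)) := by
    rintro p ⟨F, hF1, hF2⟩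
    obtain ⟨G, h1, h2, h3, h4⟩ := Q_exists (F := F) hf (d p.unpair.1)
      (ε := 1 / ((p.unpair.2 : ℝ) + 1)) (by positivity)
    exact ⟨⟨G, h1, h2⟩, h3, h4⟩
  choose nx hnx1 hnx2 using step
  let H : ℕ → {F : Filter ℕ // F.NeBot ∧ F.IsCountablyGenerated} := fun n =>
    Nat.rec ⟨atTop, inferInstance, inferInstance⟩ (fun p F => nx p F) n
  have hH : ∀ n, H (n + 1) = nx n (H n) := fun n => rfl
  have hanti : Antitone fun n => (H n).1 := antitone_nat_of_succ_le fun n => by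
    rw [hH]; exact hnx1 n (H n)
  have hne : ∀ n, ((H n).1).NeBot := fun n => (H n).2.1
  have hcg : ∀ n, ((H n).1).IsCountablyGenerated := fun n => (H n).2.2
  have hNB : (⨅ n, (H n).1).NeBot :=
    Filter.iInf_neBot_of_directed' (hanti.directed_ge) hne
  refine ⟨⨅ n, (H n).1, hNB, inferInstance, iInf_le (fun n => (H n).1) 0, ?_⟩
  intro i j
  have h1 := hnx2 (Nat.pair i j) (H (Nat.pair i j))
  rw [← hH, Nat.unpair_pair] at h1
  exact Q_mono hf (iInf_le (fun n => (H n).1) (Nat.pair i j + 1)) h1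

end Pool.Agent.H792R2.JamesA
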