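import Pool.Agent.H792R2.JamesA

open Filter Topology Set

namespace Pool.Agent.H792R2.JamesA

universe u

variable {E : Type u} [NormedAddCommGroup E] [NormedSpace ℝ E]

/-- ultrafilter limit of a bounded sequence of functionals -/
theorem exists_cluster (y : ℕ → (E →L[ℝ] ℝ)) (hy : ∀ n, ‖y n‖ ≤ 1) :
    ∃ (V : Ultrafilter ℕ) (w : E →L[ℝ] ℝ), (V : Filter ℕ) ≤ atTop ∧
      ∀ x, Tendsto (fun n => y n x) V (𝓝 (w x)) := by
  have hK := WeakDual.isCompact_closedBall (𝕜 := ℝ) (0 : StrongDual ℝ E) 1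
  set Y : ℕ → WeakDual ℝ E := fun n => StrongDual.toWeakDual (y n) with hY
  set V : Ultrafilter ℕ := Filter.hyperfilter ℕ with hV
  have hVt : (V : Filter ℕ) ≤ atTop := by
    rw [← Nat.cofinite_eq_atTop]
    exact Filter.hyperfilter_le_cofinite
  obtain ⟨w, -, hw⟩ := hK.ultrafilter_le_nhds (V.map Y) (by
    rw [le_principal_iff, Ultrafilter.mem_coe, Ultrafilter.mem_map]
    refine Filter.mem_of_superset Filter.univ_mem fun n _ => ?_
    simp only [mem_preimage, Metric.mem_closedBall, dist_zero_right]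
    exact hy n)
  refine ⟨V, WeakDual.toStrongDual w, hVt, fun x => ?_⟩
  have h1 : Tendsto (fun v : WeakDual ℝ E => v x) (𝓝 w) (𝓝 (w x)) :=
    (WeakDual.eval_continuous x).tendsto w
  have h2 : Tendsto Y V (𝓝 w) := hw
  exact h1.comp h2

variable {f : ℕ → (E →L[ℝ] ℝ)}

/-- James' construction. -/
theorem james (hatt : ∀ w : E →L[ℝ] ℝ, ∃ x : E, ‖x‖ ≤ 1 ∧ w x = ‖w‖)
    (hf : ∀ n, ‖f n‖ ≤ 1) (F : Filter ℕ) [F.NeBot] [F.IsCountablyGenerated]
    (hQ : ∀ g ∈ closure (Submodule.span ℝ (range f) : Set (E →L[ℝ] ℝ)), ∀ ε > 0, Q f F g ε)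
    {θ : ℝ} (hθ0 : 0 < θ) (hθ1 : θ ≤ 1)
    (hθ : ∀ g ∈ convexHull ℝ (range f), θ ≤ Phi f F g) : False := by
  classical
  obtain ⟨A, hA⟩ := F.exists_antitone_basis
  set C : ℕ → Set (E →L[ℝ] ℝ) := fun n => convexHull ℝ (f '' A n) with hC
  have hAmem : ∀ n, A n ∈ F := fun n => hA.mem n
  have hCne : ∀ n, (C n).Nonempty := fun n => by
    obtain ⟨k, hk⟩ := Filter.nonempty_of_mem (hAmem n)
    exact ⟨f k, subset_convexHull ℝ _ ⟨k, hk, rfl⟩⟩
  have hCanti : ∀ {m n}, m ≤ n → C n ⊆ C m := fun {m n} hmn =>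
    convexHull_mono (image_mono (hA.antitone hmn))
  have hCconv : ∀ n, Convex ℝ (C n) := fun n => convex_convexHull ℝ _
  have hCrange : ∀ n, C n ⊆ convexHull ℝ (range f) := fun n =>
    convexHull_mono (image_subset_range _ _)
  have hCnorm : ∀ n, ∀ y ∈ C n, ‖y‖ ≤ 1 := by
    intro n y hy
    have h1 : C n ⊆ Metric.closedBall 0 1 := by
      refine convexHull_min ?_ (convex_closedBall 0 1)
      rintro _ ⟨k, -, rfl⟩
      simpa using hf k
    simpa using h1 hy
  set B : ℕ → ℝ := fun n => ∏ i ∈ Finset.range n, (θ / 2 ^ (i + 3)) with hB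
  have hB0 : B 0 = 1 := by simp [hB]
  have hB1 : ∀ n, B (n + 1) = B n * (θ / 2 ^ (n + 3)) := fun n => by
    simp only [hB, Finset.prod_range_succ]
  have hBpos : ∀ n, 0 < B n := fun n => Finset.prod_pos fun i _ => by positivity
  have hρ : ∀ n : ℕ, θ / 2 ^ (n + 3) ≤ 1 / 2 := fun n => by
    rw [div_le_div_iff₀ (by positivity) (by norm_num)]
    have h1 : (1 : ℝ) ≤ 2 ^ n := one_le_pow₀ (by norm_num)
    have h2 : (2 : ℝ) ^ (n + 3) = 8 * 2 ^ n := by ring
    rw [h2]; nlinarith
  have hBhalf : ∀ n, B (n + 1) ≤ B n * (1 / 2) := fun n => by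
    rw [hB1]; exact mul_le_mul_of_nonneg_left (hρ n) (hBpos n).le
  have hBle : ∀ n, B n ≤ 1 * (1 / 2) ^ n := by
    intro n
    induction n with
    | zero => simp [hB0]
    | succ n ih =>
      refine (hBhalf n).trans ?_
      rw [pow_succ, ← mul_assoc]
      exact mul_le_mul_of_nonneg_right ih (by norm_num)
  have hBlt : ∀ n, B (n + 1) ≤ B n := fun n => by
    have := hBhalf n; have := hBpos n; linarith
  have hBt : Tendsto B atTop (𝓝 0) := by
    refine squeeze_zero (fun n => (hBpos n).le) hBle ?_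
    simpa using tendsto_pow_atTop_nhds_zero_of_lt_one (r := (1 / 2 : ℝ)) (by norm_num) (by norm_num)
  set ε : ℕ → ℝ := fun n => B (n + 1) * (θ / 2 ^ (n + 3)) with hε
  have hεpos : ∀ n, 0 < ε n := fun n => mul_pos (hBpos _) (by positivity)
  -- the choice
  have hpick : ∀ (n : ℕ) (G : E →L[ℝ] ℝ), ∃ y ∈ C n, ∀ y' ∈ C n,
      Phi f F (G + B n • y) ≤ Phi f F (G + B n • y') + ε n := by
    intro n G
    have hne : ((fun y => Phi f F (G + B n • y)) '' C n).Nonempty := (hCne n).image _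
    have hbd : BddBelow ((fun y => Phi f F (G + B n • y)) '' C n) := by
      refine ⟨0, ?_⟩
      rintro _ ⟨y, -, rfl⟩
      exact Phi_nonneg hf
    obtain ⟨_, ⟨y, hy, rfl⟩, hlt⟩ := exists_lt_of_csInf_lt hne
      (lt_add_of_pos_right (sInf ((fun y => Phi f F (G + B n • y)) '' C n)) (hεpos n))
    refine ⟨y, hy, fun y' hy' => ?_⟩
    have h1 := csInf_le hbd (mem_image_of_mem _ hy')
    simp only at hlt h1
    linarith
  choose pick hpick1 hpick2 using hpick
  let Gs : ℕ → (E →L[ℝ] ℝ) := fun n =>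
    Nat.rec 0 (fun n G => G + (B n - B (n + 1)) • pick n G) n
  have hGs0 : Gs 0 = 0 := rfl
  have hGs1 : ∀ n, Gs (n + 1) = Gs n + (B n - B (n + 1)) • pick n (Gs n) := fun n => rfl
  set y : ℕ → (E →L[ℝ] ℝ) := fun n => pick n (Gs n) with hy
  have hyC : ∀ n, y n ∈ C n := fun n => hpick1 n (Gs n)
  have hynorm : ∀ n, ‖y n‖ ≤ 1 := fun n => hCnorm n _ (hyC n)
  clear_value Gs
  -- the sets D n decrease
  have hD : ∀ n, ∀ m, n ≤ m → ∀ c ∈ C m, ∃ c' ∈ C n, Gs m + B m • c = Gs n + B n • c' := by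
    intro n m hnm
    induction m, hnm using Nat.le_induction with
    | base => exact fun c hc => ⟨c, hc, rfl⟩
    | succ m hnm ih =>
      intro c hc
      have h1 : ((B m - B (m + 1)) / B m) • y m + (B (m + 1) / B m) • c ∈ C m := by
        refine hCconv m (hyC m) (hCanti (Nat.le_succ m) hc) ?_ ?_ ?_
        · exact div_nonneg (by linarith [hBlt m]) (hBpos m).le
        · exact div_nonneg (hBpos _).le (hBpos m).le
        · have := (hBpos m).ne'
          field_simp
          ring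
      obtain ⟨c', hc', h2⟩ := ih _ h1
      refine ⟨c', hc', ?_⟩
      rw [← h2, hGs1, smul_add, smul_smul, smul_smul, mul_div_cancel₀ _ (hBpos m).ne',
        mul_div_cancel₀ _ (hBpos m).ne', add_assoc]
  have hkey1 : ∀ n m, n ≤ m → Phi f F (Gs n + B n • y n) ≤ Phi f F (Gs m + B m • y m) + ε n := by
    intro n m hnm
    obtain ⟨c', hc', h1⟩ := hD n m hnm (y m) (hyC m)
    rw [h1]
    exact hpick2 n (Gs n) c' hc'
  -- the limit g
  have hstep : ∀ n, dist (Gs n) (Gs (n + 1)) ≤ 1 * (1 / 2) ^ n := by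
    intro n
    rw [hGs1, dist_self_add_right, norm_smul, Real.norm_of_nonneg (by linarith [hBlt n])]
    calc (B n - B (n + 1)) * ‖pick n (Gs n)‖ ≤ (B n - B (n + 1)) * 1 :=
          mul_le_mul_of_nonneg_left (hynorm n) (by linarith [hBlt n])
      _ ≤ 1 * (1 / 2) ^ n := by linarith [hBle n, hBpos (n + 1)]
  obtain ⟨g, hg⟩ := cauchySeq_tendsto_of_complete
    (cauchySeq_of_le_geometric (1 / 2) 1 (by norm_num) hstep)
  have hByt : Tendsto (fun m => B m • y m) atTop (𝓝 0) := by
    rw [tendsto_zero_iff_norm_tendsto_zero]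
    refine squeeze_zero (fun n => norm_nonneg _) (fun n => ?_) hBt
    rw [norm_smul, Real.norm_of_nonneg (hBpos n).le]
    exact mul_le_of_le_one_right (hBpos n).le (hynorm n)
  have hg2 : Tendsto (fun m => Gs m + B m • y m) atTop (𝓝 g) := by
    simpa using hg.add hByt
  have hg3 : Tendsto (fun m => ‖Gs m + B m • y m - g‖) atTop (𝓝 0) := by
    rw [← tendsto_iff_norm_sub_tendsto_zero]
    exact hg2
  have hkey2 : ∀ n, Phi f F (Gs n + B n • y n) ≤ Phi f F g + ε n := by
    intro n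
    have h1 : Tendsto (fun m => Phi f F g + ‖Gs m + B m • y m - g‖ + ε n) atTop
        (𝓝 (Phi f F g + 0 + ε n)) := (tendsto_const_nhds.add hg3).add tendsto_const_nhds
    rw [add_zero] at h1
    refine ge_of_tendsto h1 ?_
    filter_upwards [eventually_ge_atTop n] with m hm
    have h2 := hkey1 n m hm
    have h3 := Phi_lip (F := F) (g := Gs m + B m • y m) (h := g) hf
    linarith
  have hθg : θ ≤ Phi f F g := by
    have h1 : Tendsto (fun m => Phi f F g + ‖Gs m + B m • y m - g‖) atTop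
        (𝓝 (Phi f F g + 0)) := tendsto_const_nhds.add hg3
    rw [add_zero] at h1
    refine ge_of_tendsto' h1 fun m => ?_
    obtain ⟨c', hc', h2⟩ := hD 0 m (Nat.zero_le m) (y m) (hyC m)
    have h3 := Phi_lip (F := F) (g := Gs m + B m • y m) (h := g) hf
    have h4 : θ ≤ Phi f F (Gs m + B m • y m) := by
      rw [h2, hGs0, hB0, zero_add, one_smul]
      exact hθ _ (hCrange 0 hc')
    linarith
  have hspan : ∀ n, Gs n ∈ Submodule.span ℝ (range f) := by
    intro n
    induction n with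
    | zero => rw [hGs0]; exact Submodule.zero_mem _
    | succ n ih =>
      rw [hGs1]
      refine Submodule.add_mem _ ih (Submodule.smul_mem _ _ ?_)
      exact (convexHull_min Submodule.subset_span (Submodule.convex _)) (hCrange n (hyC n))
  have hgcl : g ∈ closure (Submodule.span ℝ (range f) : Set (E →L[ℝ] ℝ)) :=
    mem_closure_of_tendsto hg (Eventually.of_forall hspan)
  -- the cluster point
  obtain ⟨V, w, hV, hw⟩ := exists_cluster y hynorm
  have hlow : Phi f F g ≤ ‖g - w‖ := by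
    refine le_of_forall_pos_le_add fun δ hδ => ?_
    obtain ⟨z, hz, l, hl, h1⟩ := hQ g hgcl δ hδ
    have h2 : Tendsto (fun n => y n z) atTop (𝓝 l) := by
      rw [Metric.tendsto_atTop]
      intro η hη
      have h3 : ∀ᶠ k in F, f k z ∈ Metric.closedBall l (η / 2) :=
        hl (Metric.closedBall_mem_nhds l (by linarith))
      obtain ⟨n0, h4⟩ := hA.mem_iff.1 h3
      refine ⟨n0, fun n hn => ?_⟩
      have h5 : C n0 ⊆ {h : E →L[ℝ] ℝ | h z ∈ Metric.closedBall l (η / 2)} := by
        refine convexHull_min ?_ ?_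
        · rintro _ ⟨k, hk, rfl⟩
          exact h4 hk
        · exact (convex_closedBall l (η / 2)).is_linear_preimage (f := fun h : E →L[ℝ] ℝ => h z)
            ⟨fun _ _ => rfl, fun _ _ => rfl⟩
      have h6 := h5 (hCanti hn (hyC n))
      have h7 : dist (y n z) l ≤ η / 2 := h6
      linarith
    have h3 : w z = l := tendsto_nhds_unique (hw z) (h2.mono_left hV)
    have h4 := (abs_le.1 (abs_le_of (g - w) hz)).2
    rw [show (g - w) z = g z - w z from rfl, h3] at h4
    linarith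
  have hup : ∀ h : E →L[ℝ] ℝ, ∀ x : E, ‖x‖ ≤ 1 → h x - w x ≤ Phi f F h := by
    intro h x hx
    refine le_csInf ⟨_, mem_U hf⟩ fun t ht => ?_
    have h1 : ∀ᶠ k in F, h x - f k x ≤ t := ht x hx
    obtain ⟨n0, h4⟩ := hA.mem_iff.1 h1
    have h5 : C n0 ⊆ {v : E →L[ℝ] ℝ | h x - t ≤ v x} := by
      refine convexHull_min ?_ ?_
      · rintro _ ⟨k, hk, rfl⟩
        have : h x - f k x ≤ t := h4 hk
        simp only [mem_ofPred_eq]
        linarith
      · exact convex_halfSpace_ge (f := fun v : E →L[ℝ] ℝ => v x) ⟨fun _ _ => rfl, fun _ _ => rfl⟩ _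
    have h6 : ∀ᶠ n in (V : Filter ℕ), h x - t ≤ y n x := by
      have h7 : ∀ᶠ n in (atTop : Filter ℕ), h x - t ≤ y n x := by
        filter_upwards [eventually_ge_atTop n0] with n hn using h5 (hCanti hn (hyC n))
      exact hV h7
    have h8 := ge_of_tendsto (hw x) h6
    linarith
  obtain ⟨x, hx, hxa⟩ := hatt (g - w)
  have hxa' : g x - w x = ‖g - w‖ := hxa
  have htn : ∀ n, |y n x| ≤ 1 := fun n => (abs_le_of _ hx).trans (hynorm n)
  have hGx : ∀ n, Gs (n + 1) x = Gs n x + (B n - B (n + 1)) * y n x := fun n => by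
    rw [hGs1]; rfl
  have hgx : Tendsto (fun n => Gs n x) atTop (𝓝 (g x)) := by
    have : Continuous fun v : E →L[ℝ] ℝ => v x := by fun_prop
    exact (this.tendsto g).comp hg
  have htail : ∀ n, g x - Gs n x ≤ B n := by
    intro n
    have h1 : ∀ m, n ≤ m → Gs m x - Gs n x ≤ B n - B m := by
      intro m hm
      induction m, hm using Nat.le_induction with
      | base => simp
      | succ m hm ih =>
        rw [hGx]
        have h2 := (abs_le.1 (htn m)).2
        have h3 : (B m - B (m + 1)) * y m x ≤ (B m - B (m + 1)) * 1 :=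
          mul_le_mul_of_nonneg_left h2 (by linarith [hBlt m])
        linarith
    refine le_of_tendsto (hgx.sub_const _) ?_
    filter_upwards [eventually_ge_atTop n] with m hm
    linarith [h1 m hm, hBpos m]
  have hmain : ∀ n, y n x ≤ y (n + 1) x + θ / 2 ^ (n + 2) := by
    intro n
    have h1 := hup (Gs n + B n • y n) x hx
    have h2 : (Gs n + B n • y n) x = Gs n x + B n * y n x := rfl
    rw [h2] at h1
    have h3 := hkey2 n
    have h4 := htail (n + 2)
    have h5 := hGx n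
    have h6 := hGx (n + 1)
    have h7 := (abs_le.1 (htn (n + 1))).1
    have hb2 := hBpos (n + 2)
    have h8 : B (n + 1) * y n x ≤ B (n + 1) * y (n + 1) x + 2 * B (n + 2) + ε n := by
      have h9 : B n * y n x = (B n - B (n + 1)) * y n x + B (n + 1) * y n x := by ring
      have h10 : (B (n + 1) - B (n + 1 + 1)) * y (n + 1) x ≤
          B (n + 1) * y (n + 1) x + B (n + 2) := by
        have : -B (n + 2) ≤ B (n + 2) * y (n + 1) x := by nlinarith
        have e : n + 1 + 1 = n + 2 := rfl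
        rw [e]
        linarith
      have e : n + 1 + 1 = n + 2 := rfl
      rw [e] at h6
      linarith
    have h11 : ε n = B (n + 1) * (θ / 2 ^ (n + 3)) := rfl
    have h12 : 2 * B (n + 2) = B (n + 1) * (2 * (θ / 2 ^ (n + 4))) := by
      rw [show n + 2 = (n + 1) + 1 from rfl, hB1]; ring
    have h13 : B (n + 1) * y n x ≤
        B (n + 1) * (y (n + 1) x + 2 * (θ / 2 ^ (n + 4)) + θ / 2 ^ (n + 3)) := by
      rw [h12, h11] at h8; linarith
    have h14 := le_of_mul_le_mul_left h13 (hBpos (n + 1))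
    have h15 : 2 * (θ / 2 ^ (n + 4)) + θ / 2 ^ (n + 3) = θ / 2 ^ (n + 2) := by
      have e1 : (2 : ℝ) ^ (n + 4) = 4 * 2 ^ (n + 2) := by ring
      have e2 : (2 : ℝ) ^ (n + 3) = 2 * 2 ^ (n + 2) := by ring
      have e3 : (2 : ℝ) ^ (n + 2) ≠ 0 := by positivity
      rw [e1, e2]
      field_simp
      ring
    linarith
  have hmono : Monotone fun n => y n x - θ / 2 ^ (n + 1) := by
    refine monotone_nat_of_le_succ fun n => ?_
    have h1 := hmain n
    have e2 : θ / 2 ^ (n + 1) = θ / 2 ^ (n + 2) + θ / 2 ^ (n + 2) := by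
      have e1 : (2 : ℝ) ^ (n + 2) = 2 * 2 ^ (n + 1) := by ring
      rw [e1]
      field_simp
      ring
    have e3 : n + 1 + 1 = n + 2 := rfl
    simp only [e3]
    linarith
  have hlim : ∀ n, y n x ≤ w x + θ / 2 := by
    intro n
    have h1 : ∀ᶠ m in (V : Filter ℕ), y n x - θ / 2 ≤ y m x := by
      have h7 : ∀ᶠ m in (atTop : Filter ℕ), y n x - θ / 2 ≤ y m x := by
        filter_upwards [eventually_ge_atTop n] with m hm
        have h2 := hmono hm
        simp only at h2
        have h3 : θ / 2 ^ (n + 1) ≤ θ / 2 := by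
          refine div_le_div_of_nonneg_left hθ0.le (by norm_num) ?_
          calc (2 : ℝ) = 2 ^ 1 := by norm_num
            _ ≤ 2 ^ (n + 1) := pow_le_pow_right₀ (by norm_num) (by omega)
        have h4 : 0 < θ / 2 ^ (m + 1) := by positivity
        linarith
      exact hV h7
    have h8 := ge_of_tendsto (hw x) h1
    linarith
  have hfin : ∀ m, Gs m x ≤ (1 - B m) * (w x + θ / 2) := by
    intro m
    induction m with
    | zero => rw [hGs0, hB0]; simp
    | succ m ih =>
      rw [hGx]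
      have h3 : (B m - B (m + 1)) * y m x ≤ (B m - B (m + 1)) * (w x + θ / 2) :=
        mul_le_mul_of_nonneg_left (hlim m) (by linarith [hBlt m])
      linarith
  have hgle : g x ≤ (1 - 0) * (w x + θ / 2) :=
    le_of_tendsto_of_tendsto' hgx ((tendsto_const_nhds.sub hBt).mul_const _) hfin
  linarith

/-- If every functional attains its norm, bounded sequences of functionals have pointwise
convergent subsequences. -/
theorem exists_subseq (hatt : ∀ w : E →L[ℝ] ℝ, ∃ x : E, ‖x‖ ≤ 1 ∧ w x = ‖w‖)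
    (hf : ∀ n, ‖f n‖ ≤ 1) :
    ∃ φ : ℕ → ℕ, StrictMono φ ∧ ∀ x, ∃ l : ℝ, Tendsto (fun n => f (φ n) x) atTop (𝓝 l) := by
  classical
  have hsep : TopologicalSpace.IsSeparable (Submodule.span ℝ (range f) : Set (E →L[ℝ] ℝ)) :=
    (countable_range f).isSeparable.span
  obtain ⟨D, hDc, hDd⟩ := hsep.closure
  obtain ⟨d, hd⟩ : ∃ d : ℕ → (E →L[ℝ] ℝ), D ⊆ range d := by
    rcases D.eq_empty_or_nonempty with h | h
    · exact ⟨fun _ => 0, by rw [h]; exact empty_subset _⟩
    · obtain ⟨d, hd⟩ := hDc.exists_eq_range h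
      exact ⟨d, hd.le⟩
  obtain ⟨G, hG1, hG2, hG3, hG4⟩ := Q_seq hf d
  have hQ : ∀ g ∈ closure (Submodule.span ℝ (range f) : Set (E →L[ℝ] ℝ)), ∀ ε > 0,
      Q f G g ε := by
    intro g hg ε hε
    obtain ⟨d', hd', hdist⟩ := Metric.mem_closure_iff.1 (hDd hg) (ε / 4) (by linarith)
    obtain ⟨i, rfl⟩ := hd hd'
    obtain ⟨j, hj⟩ := exists_nat_one_div_lt (show (0 : ℝ) < ε / 4 by linarith)
    obtain ⟨z, hz, l, hl, h1⟩ := hG4 i j
    refine ⟨z, hz, l, hl, ?_⟩
    have h2 := Phi_lip (F := G) (g := g) (h := d i) hf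
    have h3 := abs_le.1 (abs_le_of (g - d i) hz)
    rw [show (g - d i) z = g z - d i z from rfl] at h3
    rw [dist_eq_norm] at hdist
    linarith [h3.1]
  by_cases hcase : ∃ θ : ℝ, 0 < θ ∧ ∀ g ∈ convexHull ℝ (range f), θ ≤ Phi f G g
  · obtain ⟨θ, h0, h1⟩ := hcase
    exact (james hatt hf G hQ (θ := min θ 1) (lt_min h0 one_pos) (min_le_right _ _)
      (fun g hg => (min_le_left _ _).trans (h1 g hg))).elim
  · push Not at hcase
    obtain ⟨u, hu⟩ := Filter.exists_seq_tendsto G
    have hu2 : Tendsto u atTop atTop := hu.mono_right hG3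
    obtain ⟨ψ, hψ1, hψ2⟩ := Filter.strictMono_subseq_of_tendsto_atTop hu2
    refine ⟨u ∘ ψ, hψ2, ?_⟩
    have hT : Tendsto (u ∘ ψ) atTop G := hu.comp hψ1.tendsto_atTop
    have hball : ∀ x : E, ‖x‖ ≤ 1 → ∃ l : ℝ, Tendsto (fun n => f ((u ∘ ψ) n) x) atTop (𝓝 l) := by
      intro x hx
      refine cauchySeq_tendsto_of_complete ?_
      rw [Metric.cauchySeq_iff']
      intro ε hε
      obtain ⟨g, -, hg⟩ := hcase (ε / 3) (by linarith)
      have hmem := mem_U_of_lt hf hg
      have e1 := hmem x hx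
      have e2 := hmem (-x) (by rwa [norm_neg])
      have e3 := (hT.eventually e1).and (hT.eventually e2)
      obtain ⟨N, hN⟩ := eventually_atTop.1 e3
      refine ⟨N, fun n hn => ?_⟩
      obtain ⟨a1, a2⟩ := hN n hn
      obtain ⟨b1, b2⟩ := hN N le_rfl
      simp only [map_neg, Function.comp] at a1 a2 b1 b2
      rw [Real.dist_eq, abs_lt]
      simp only [Function.comp]
      constructor <;> linarith
    intro x
    rcases eq_or_ne x 0 with rfl | hx
    · exact ⟨0, by simp⟩
    · obtain ⟨l, hl⟩ := hball ((‖x‖)⁻¹ • x) (by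
        rw [norm_smul, norm_inv, norm_norm, inv_mul_cancel₀ (norm_ne_zero_iff.2 hx)])
      refine ⟨‖x‖ * l, ?_⟩
      have h1 := hl.const_mul ‖x‖
      refine h1.congr fun n => ?_
      rw [map_smul, smul_eq_mul, ← mul_assoc, mul_inv_cancel₀ (norm_ne_zero_iff.2 hx), one_mul]

end Pool.Agent.H792R2.JamesA
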