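import Mathlib

set_option autoImplicit false

open MeasureTheory Set Filter Topology
open scoped ENNReal

namespace Pool.Agent.H792R2.Tilf

section algebra

variable {G : Type*} [AddCommGroup G]

/-- the average of `f` over the generalised arithmetic progression with steps `l`, based at `x` -/
noncomputable def A (L : ℕ) : List G → (G → ℝ) → G → ℝ
  | [], f, x => f x
  | a :: l, f, x => (∑ i ∈ Finset.range L, A L l f (x + i • a)) / L

/-- the points of the generalised arithmetic progression -/
def pts (L : ℕ) : List G → List G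
  | [] => [0]
  | a :: l => (List.range L).flatMap fun i => (pts L l).map fun p => i • a + p

theorem length_pts (L : ℕ) (l : List G) : (pts L l).length = L ^ l.length := by
  induction l with
  | nil => simp [pts]
  | cons a l ih =>
    simp only [pts, List.length_flatMap, List.length_map, ih, List.length_cons]
    rw [List.map_const', List.sum_replicate, List.length_range, pow_succ, smul_eq_mul, mul_comm]

variable {L : ℕ}

theorem A_add (l : List G) (f g : G → ℝ) (x : G) :
    A L l (fun y => f y + g y) x = A L l f x + A L l g x := by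
  induction l generalizing x with
  | nil => rfl
  | cons a l ih =>
    simp only [A, ih]
    rw [Finset.sum_add_distrib, add_div]

theorem A_smul (l : List G) (c : ℝ) (f : G → ℝ) (x : G) :
    A L l (fun y => c * f y) x = c * A L l f x := by
  induction l generalizing x with
  | nil => rfl
  | cons a l ih =>
    simp only [A, ih]
    rw [← Finset.mul_sum, mul_div_assoc]

theorem A_sub (l : List G) (f g : G → ℝ) (x : G) :
    A L l (fun y => f y - g y) x = A L l f x - A L l g x := by
  induction l generalizing x with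
  | nil => rfl
  | cons a l ih =>
    simp only [A, ih]
    rw [Finset.sum_sub_distrib, sub_div]

theorem A_sum {ι : Type*} (s : Finset ι) (l : List G) (f : ι → G → ℝ) (x : G) :
    A L l (fun y => ∑ j ∈ s, f j y) x = ∑ j ∈ s, A L l (f j) x := by
  induction l generalizing x with
  | nil => rfl
  | cons a l ih =>
    simp only [A, ih]
    rw [Finset.sum_comm, Finset.sum_div]

theorem A_trans (l : List G) (f : G → ℝ) (b x : G) :
    A L l (fun y => f (y + b)) x = A L l f (x + b) := by
  induction l generalizing x with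
  | nil => rfl
  | cons a l ih =>
    simp only [A, ih]
    congr 1
    refine Finset.sum_congr rfl fun i _ => ?_
    congr 1
    abel

theorem A_le (hL : 0 < L) (l : List G) {f : G → ℝ} {M : ℝ} (h : ∀ y, |f y| ≤ M) (x : G) :
    |A L l f x| ≤ M := by
  induction l generalizing x with
  | nil => exact h x
  | cons a l ih =>
    have hL' : (0 : ℝ) < L := by exact_mod_cast hL
    simp only [A]
    rw [abs_div, abs_of_pos hL', div_le_iff₀ hL']
    refine (Finset.abs_sum_le_sum_abs _ _).trans ?_
    refine (Finset.sum_le_sum fun i _ => ih (x + i • a)).trans ?_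
    simp [mul_comm]

theorem A_diff (hL : 0 < L) (l : List G) {f : G → ℝ} {M : ℝ} (h : ∀ y, |f y| ≤ M) {b : G}
    (hb : b ∈ l) (x : G) : |A L l (fun y => f y - f (y - b)) x| ≤ 2 * M / L := by
  have hL' : (0 : ℝ) < L := by exact_mod_cast hL
  induction l generalizing x with
  | nil => simp at hb
  | cons a l ih =>
    simp only [A]
    rcases List.mem_cons.1 hb with rfl | hb'
    · have h1 : ∀ i : ℕ, A L l (fun y => f y - f (y - b)) (x + i • b) =
          A L l f (x - b + (i + 1) • b) - A L l f (x - b + i • b) := by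
        intro i
        rw [A_sub]
        congr 1
        · congr 1
          rw [add_smul, one_smul]
          abel
        · have := A_trans (L := L) l f (-b) (x + i • b)
          simp only [← sub_eq_add_neg] at this
          rw [this]
          congr 1
          abel
      have h2 : ∑ i ∈ Finset.range L, A L l (fun y => f y - f (y - b)) (x + i • b) =
          A L l f (x - b + L • b) - A L l f (x - b + 0 • b) := by
        simp_rw [h1]
        exact Finset.sum_range_sub (fun i => A L l f (x - b + i • b)) L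
      rw [h2, abs_div, abs_of_pos hL']
      gcongr
      have h3 := A_le hL l h (x - b + L • b)
      have h4 := A_le hL l h (x - b + 0 • b)
      have h5 := abs_sub (A L l f (x - b + L • b)) (A L l f (x - b + 0 • b))
      linarith
    · rw [abs_div, abs_of_pos hL', div_le_iff₀ hL']
      refine (Finset.abs_sum_le_sum_abs _ _).trans ?_
      refine (Finset.sum_le_sum fun i _ => ih hb' (x + i • a)).trans ?_
      simp [mul_comm]

theorem le_A (hL : 0 < L) (l : List G) {f : G → ℝ} {c : ℝ} {x : G}
    (h : ∀ p ∈ pts L l, c ≤ f (x + p)) : c ≤ A L l f x := by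
  induction l generalizing x with
  | nil => simpa [pts, A] using h 0 (by simp [pts])
  | cons a l ih =>
    have hL' : (0 : ℝ) < L := by exact_mod_cast hL
    simp only [A]
    rw [le_div_iff₀ hL']
    have h1 : ∀ i ∈ Finset.range L, c ≤ A L l f (x + i • a) := by
      intro i hi
      refine ih fun p hp => ?_
      rw [add_assoc]
      apply h
      simp only [pts, List.mem_flatMap, List.mem_range, List.mem_map]
      exact ⟨i, Finset.mem_range.1 hi, p, hp, rfl⟩
    have h2 := Finset.sum_le_sum h1
    simpa [mul_comm] using h2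

theorem A_diff_le (hL : 0 < L) (l : List G) {f : G → ℝ} {ε : ℝ} {d : G}
    (h : ∀ y, |f (y + d) - f y| ≤ ε) (x : G) : |A L l f (x + d) - A L l f x| ≤ ε := by
  rw [← A_trans, ← A_sub]
  exact A_le hL l h x

end algebra

section analysis

variable {G : Type*} [AddCommGroup G] [MetricSpace G] [CompactSpace G] [IsTopologicalAddGroup G]
  {L : ℕ}

theorem A_continuous (l : List G) {f : G → ℝ} (hf : Continuous f) : Continuous (A L l f) := by
  induction l with
  | nil => exact hf
  | cons a l ih =>
    change Continuous fun x => (∑ i ∈ Finset.range L, A L l f (x + i • a)) / L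
    refine Continuous.div_const ?_ _
    exact continuous_finsetSum _ fun i _ => ih.comp (by fun_prop)

variable [MeasurableSpace G] [BorelSpace G] (μ : Measure G) [IsProbabilityMeasure μ]
  [μ.IsAddRightInvariant]

theorem integrable_cont {f : G → ℝ} (hf : Continuous f) : Integrable f μ :=
  hf.integrable_of_hasCompactSupport (HasCompactSupport.of_compactSpace f)

theorem integral_A (hL : 0 < L) (l : List G) {f : G → ℝ} (hf : Continuous f) :
    ∫ x, A L l f x ∂μ = ∫ x, f x ∂μ := by
  induction l with
  | nil => rfl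
  | cons a l ih =>
    have hL' : (L : ℝ) ≠ 0 := by exact_mod_cast hL.ne'
    simp only [A]
    rw [integral_div, integral_finsetSum]
    · have h1 : ∀ i ∈ Finset.range L, ∫ x, A L l f (x + i • a) ∂μ = ∫ x, f x ∂μ := by
        intro i _
        rw [integral_add_right_eq_self (μ := μ) (fun x => A L l f x) (i • a), ih]
      rw [Finset.sum_congr rfl h1]
      simp only [Finset.sum_const, Finset.card_range, nsmul_eq_mul]
      field_simp
    · intro i _
      apply integrable_cont
      exact (A_continuous l hf).comp (by fun_prop)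

/-- a mean-zero continuous function which is large on a translate of every finite set with few
elements -/
theorem key [NullSingletonClass μ] (m : ℕ) {η : ℝ} (hη : 0 < η) : ∃ h : C(G, ℝ), (∀ x, |h x| ≤ 1) ∧
    ∫ x, h x ∂μ = 0 ∧ ∀ (P : Fin m → G) (x₀ : G), ∃ x, dist x x₀ < η ∧ ∀ i, 1 / 4 ≤ h (x + P i) := by
  obtain ⟨D, hDc, hDd⟩ := TopologicalSpace.exists_countable_dense G
  have hD0 : μ D = 0 := hDc.measure_zero μ
  obtain ⟨U, hDU, hUo, hUμ⟩ := D.exists_isOpen_lt_of_lt (μ := μ) (ENNReal.ofReal (1 / 4)) (by
    rw [hD0]; simp)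
  have hUd : Dense U := hDd.mono hDU
  have hUc : Uᶜ.Nonempty := by
    rw [nonempty_compl]
    rintro rfl
    rw [measure_univ] at hUμ
    have : ENNReal.ofReal (1 / 4) ≤ 1 := by
      rw [← ENNReal.ofReal_one]
      exact ENNReal.ofReal_le_ofReal (by norm_num)
    exact absurd hUμ (not_lt.2 this)
  let u : ℕ → G → ℝ := fun n x => min 1 (n * Metric.infDist x Uᶜ)
  have hu0 : ∀ n x, 0 ≤ u n x := fun n x =>
    le_min zero_le_one (mul_nonneg (Nat.cast_nonneg _) Metric.infDist_nonneg)
  have hu1 : ∀ n x, u n x ≤ 1 := fun n x => min_le_left _ _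
  have huc : ∀ n, Continuous (u n) := fun n =>
    continuous_const.min (continuous_const.mul (Metric.continuous_infDist_pt _))
  have hum : ∀ {n n' : ℕ} (x : G), n ≤ n' → u n x ≤ u n' x := by
    intro n n' x h
    refine min_le_min le_rfl ?_
    exact mul_le_mul_of_nonneg_right (by exact_mod_cast h) Metric.infDist_nonneg
  have huU : ∀ n, ∀ x ∉ U, u n x = 0 := by
    intro n x hx
    have h1 : Metric.infDist x Uᶜ = 0 := Metric.infDist_zero_of_mem hx
    simp [u, h1]
  have hui : ∀ n, ∫ x, u n x ∂μ ≤ 1 / 4 := by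
    intro n
    have h1 : ∫ x, u n x ∂μ ≤ ∫ x, U.indicator (fun _ => (1 : ℝ)) x ∂μ := by
      apply integral_mono (integrable_cont μ (huc n))
      · exact (integrable_const 1).indicator hUo.measurableSet
      · intro x
        by_cases hx : x ∈ U
        · rw [indicator_of_mem hx]; exact hu1 n x
        · rw [indicator_of_notMem hx, huU n x hx]
    refine h1.trans ?_
    rw [integral_indicator_const _ hUo.measurableSet, smul_eq_mul, mul_one]
    have h2 : (μ U).toReal ≤ (ENNReal.ofReal (1 / 4)).toReal :=
      ENNReal.toReal_mono ENNReal.ofReal_ne_top hUμ.le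
    rw [ENNReal.toReal_ofReal (by norm_num)] at h2
    exact h2
  have hui0 : ∀ n, 0 ≤ ∫ x, u n x ∂μ := fun n => integral_nonneg (hu0 n)
  -- compactness
  let W : ℕ → Set ((Fin m → G) × G) := fun n =>
    {q | ∃ x, dist x q.2 < η ∧ ∀ i, 1 / 2 < u n (x + q.1 i)}
  have hWo : ∀ n, IsOpen (W n) := by
    intro n
    have h1 : W n = ⋃ x : G, {q : (Fin m → G) × G | dist x q.2 < η} ∩
        ⋂ i, {q : (Fin m → G) × G | 1 / 2 < u n (x + q.1 i)} := by
      ext q
      simp [W]
    rw [h1]
    refine isOpen_iUnion fun x => IsOpen.inter ?_ (isOpen_iInter_of_finite fun i => ?_)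
    · exact isOpen_lt (by fun_prop) continuous_const
    · exact isOpen_lt continuous_const ((huc n).comp (by fun_prop))
  have hcov : (univ : Set ((Fin m → G) × G)) ⊆ ⋃ n, W n := by
    rintro ⟨P, x₀⟩ -
    have h1 : ∀ i : Fin m, IsOpen {x : G | x + P i ∈ U} := fun i =>
      hUo.preimage (by fun_prop)
    have h2 : ∀ i : Fin m, Dense {x : G | x + P i ∈ U} := fun i =>
      hUd.preimage (Homeomorph.addRight (P i)).isOpenMap
    have h3 : Dense (⋂ i : Fin m, {x : G | x + P i ∈ U}) :=
      dense_iInter_of_isOpen h1 h2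
    obtain ⟨x, hx1, hx2⟩ := h3.exists_mem_open Metric.isOpen_ball
      ⟨x₀, Metric.mem_ball_self hη⟩
    rw [mem_iInter] at hx1
    have h4 : ∀ i, 0 < Metric.infDist (x + P i) Uᶜ := by
      intro i
      rw [← (hUo.isClosed_compl).notMem_iff_infDist_pos hUc]
      exact fun h => h (hx1 i)
    have h5 : ∀ i, ∃ n : ℕ, 1 < n * Metric.infDist (x + P i) Uᶜ := by
      intro i
      obtain ⟨n, hn⟩ := exists_nat_gt (1 / Metric.infDist (x + P i) Uᶜ)
      refine ⟨n, ?_⟩
      rwa [div_lt_iff₀ (h4 i)] at hn
    choose n hn using h5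
    rw [mem_iUnion]
    refine ⟨Finset.univ.sup n, x, hx2, fun i => ?_⟩
    have h6 : (n i : ℝ) ≤ (Finset.univ.sup n : ℕ) := by
      exact_mod_cast Finset.le_sup (f := n) (Finset.mem_univ i)
    have h7 : 1 < ((Finset.univ.sup n : ℕ) : ℝ) * Metric.infDist (x + P i) Uᶜ :=
      (hn i).trans_le (mul_le_mul_of_nonneg_right h6 Metric.infDist_nonneg)
    change 1 / 2 < min 1 _
    rw [min_eq_left h7.le]
    norm_num
  have hdir : Directed (· ⊆ ·) W := by
    refine directed_of_isDirected_le ?_
    rintro n n' h q ⟨x, hx1, hx2⟩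
    exact ⟨x, hx1, fun i => (hx2 i).trans_le (hum _ h)⟩
  obtain ⟨n, hn⟩ := isCompact_univ.elim_directed_cover W hWo hcov hdir
  refine ⟨⟨fun x => u n x - ∫ y, u n y ∂μ, (huc n).sub continuous_const⟩, fun x => ?_, ?_, ?_⟩
  · have h1 := hui n
    have h2 := hui0 n
    have h3 := hu0 n x
    have h4 := hu1 n x
    change |u n x - ∫ y, u n y ∂μ| ≤ 1
    rw [abs_le]
    constructor <;> linarith
  · change ∫ x, (u n x - ∫ y, u n y ∂μ) ∂μ = 0
    rw [integral_sub (integrable_cont μ (huc n)) (integrable_const _)]
    simp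
  · intro P x₀
    obtain ⟨x, hx1, hx2⟩ := hn (mem_univ (P, x₀))
    refine ⟨x, hx1, fun i => ?_⟩
    have h1 := hui n
    have h2 := hx2 i
    change 1 / 4 ≤ u n (x + P i) - ∫ y, u n y ∂μ
    simp only at h2
    linarith

/-- representable with `N` differences of functions bounded by `M` -/
def Rep (N : ℕ) (M : ℝ) (f : G → ℝ) : Prop :=
  ∃ (a : Fin N → G) (g : Fin N → G → ℝ), (∀ j y, |g j y| ≤ M) ∧
    ∀ x, f x = ∑ j, (g j x - g j (x - a j))

/-- **Main theorem**: some mean-zero continuous function is not a finite sum of differences of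
bounded functions. -/
theorem exists_not_rep [NullSingletonClass μ] : ∃ f : C(G, ℝ), ∫ x, f x ∂μ = 0 ∧
    ∀ (N : ℕ) (M : ℝ), ¬ Rep N M f := by
  by_contra hcon
  push Not at hcon
  -- the space of mean zero functions
  let X : Set C(G, ℝ) := {f | ∫ x, f x ∂μ = 0}
  have hXc : IsClosed X := by
    have h1 : Continuous fun f : C(G, ℝ) => ∫ x, f x ∂μ := by
      refine continuous_iff_continuousAt.2 fun f => ?_
      rw [Metric.continuousAt_iff]
      intro ε hε
      refine ⟨ε, hε, fun {g} hg => ?_⟩
      rw [dist_eq_norm, ← integral_sub (integrable_cont μ g.continuous) (integrable_cont μ f.continuous)]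
      have h2 : ∀ x, ‖g x - f x‖ ≤ dist g f := fun x => by
        rw [← dist_eq_norm]; exact ContinuousMap.dist_apply_le_dist x
      refine lt_of_le_of_lt (norm_integral_le_of_norm_le_const (Eventually.of_forall h2)) ?_
      simpa using hg
    exact isClosed_eq h1 continuous_const
  have : CompleteSpace X := hXc.completeSpace_coe
  have : Nonempty X := ⟨⟨0, by simp [X]⟩⟩
  let S : ℕ × ℕ → Set X := fun p => closure {f : X | Rep p.1 p.2 f.1}
  have hS : ⋃ p, S p = univ := by
    rw [eq_univ_iff_forall]
    intro f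
    obtain ⟨N, M, a, g, hg, hf⟩ := hcon f.1 f.2
    rw [mem_iUnion]
    refine ⟨(N, ⌈M⌉₊), subset_closure ⟨a, g, fun j y => (hg j y).trans (Nat.le_ceil M), hf⟩⟩
  obtain ⟨⟨N, M⟩, hint⟩ := nonempty_interior_of_iUnion_of_closed (fun p => isClosed_closure) hS
  obtain ⟨f₀, hf₀⟩ := hint
  obtain ⟨r, hr, hball⟩ := Metric.isOpen_iff.1 isOpen_interior f₀ hf₀
  -- choose L
  obtain ⟨L, hL⟩ := exists_nat_gt (max 1 (64 * (2 * N * M) / r))
  have hL1 : (1 : ℝ) < L := (le_max_left _ _).trans_lt hL
  have hL0 : 0 < L := by
    have : (0 : ℝ) < L := by linarith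
    exact_mod_cast this
  have hLr : (N : ℝ) * (2 * M / L) ≤ r / 64 := by
    have h1 : 64 * (2 * N * M) / r < L := (le_max_right _ _).trans_lt hL
    rw [div_lt_iff₀ hr] at h1
    have hL' : (0 : ℝ) < L := by linarith
    rw [mul_div_assoc', div_le_iff₀ hL']
    linarith
  -- uniform continuity of f₀
  obtain ⟨η, hη, hηf⟩ := Metric.uniformContinuous_iff.1
    (CompactSpace.uniformContinuous_of_continuous f₀.1.continuous) (r / 64) (by positivity)
  -- the metric need not be invariant: use uniform continuity of subtraction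
  have hsub : ∃ η' > 0, ∀ x y : G, dist x y < η' → ∀ z, dist (z + (x - y)) z < η := by
    have h1 : UniformContinuous fun q : G × G => q.1 + q.2 :=
      CompactSpace.uniformContinuous_of_continuous continuous_add
    obtain ⟨δ₁, hδ₁, h2⟩ := Metric.uniformContinuous_iff.1 h1 η hη
    have h3 : UniformContinuous fun q : G × G => q.1 - q.2 :=
      CompactSpace.uniformContinuous_of_continuous continuous_sub
    obtain ⟨δ₂, hδ₂, h4⟩ := Metric.uniformContinuous_iff.1 h3 δ₁ hδ₁
    refine ⟨δ₂, hδ₂, fun x y hxy z => ?_⟩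
    have h5 : dist (x - y) 0 < δ₁ := by
      have := h4 (a := (x, y)) (b := (y, y)) (by simpa [Prod.dist_eq] using hxy)
      simpa using this
    have := h2 (a := (z, x - y)) (b := (z, 0)) (by simpa [Prod.dist_eq] using h5)
    simpa using this
  obtain ⟨η', hη', hηd⟩ := hsub
  obtain ⟨h, hh1, hh2, hh3⟩ := key μ (L ^ N) hη'
  -- the perturbed function
  let f : X := ⟨f₀.1 + (r / 2) • h, by
    change ∫ x, (f₀.1 x + (r / 2) * h x) ∂μ = 0
    have hi1 : Integrable (fun x => (r / 2) * h x) μ :=
      (integrable_cont μ h.continuous).const_mul _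
    rw [integral_add (integrable_cont μ f₀.1.continuous) hi1, integral_const_mul, hh2, mul_zero,
      add_zero]
    exact f₀.2⟩
  have hfx : ∀ x, f.1 x = f₀.1 x + (r / 2) * h x := fun x => rfl
  have hfd : f ∈ Metric.ball f₀ r := by
    rw [Metric.mem_ball, Subtype.dist_eq]
    refine lt_of_le_of_lt ((ContinuousMap.dist_le (by positivity : (0 : ℝ) ≤ r / 2)).2 fun x => ?_)
      (by linarith : r / 2 < r)
    rw [hfx, Real.dist_eq, add_sub_cancel_left, abs_mul, abs_of_pos (by positivity : 0 < r / 2)]
    have := hh1 x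
    nlinarith
  have hfS : f ∈ S (N, M) := interior_subset (hball hfd)
  obtain ⟨f', ⟨a, g, hg, hf'⟩, hff'⟩ := Metric.mem_closure_iff.1 hfS (r / 64) (by positivity)
  -- averages
  let l : List G := List.ofFn a
  have hll : l.length = N := by simp [l]
  have hAf' : ∀ x, |A L l f'.1 x| ≤ r / 64 := by
    intro x
    have h1 : (f'.1 : G → ℝ) = fun x => ∑ j, (g j x - g j (x - a j)) := funext hf'
    rw [h1, A_sum]
    refine (Finset.abs_sum_le_sum_abs _ _).trans ?_
    refine (Finset.sum_le_sum fun j _ => A_diff hL0 l (hg j) (b := a j) ?_ x).trans ?_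
    · simp [l]
    · simpa using hLr
  have hAf : ∀ x, |A L l f.1 x| ≤ r / 32 := by
    intro x
    have h1 : |A L l (fun y => f.1 y - f'.1 y) x| ≤ r / 64 := by
      refine A_le hL0 l (fun y => ?_) x
      rw [← Real.dist_eq]
      exact (ContinuousMap.dist_apply_le_dist y).trans (by
        have := hff'.le
        rwa [Subtype.dist_eq] at this)
    rw [A_sub] at h1
    have h2 := hAf' x
    have h3 := abs_add_le (A L l f.1 x - A L l f'.1 x) (A L l f'.1 x)
    rw [sub_add_cancel] at h3
    linarith
  -- a point where the average of f₀ is nonnegative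
  obtain ⟨x₀, hx₀⟩ := exists_integral_le (μ := μ) (f := A L l f₀.1)
    (integrable_cont μ (A_continuous l f₀.1.continuous))
  rw [integral_A μ hL0 l f₀.1.continuous, f₀.2] at hx₀
  -- the good point
  have hlen : (pts L l).length = L ^ N := by rw [length_pts, hll]
  obtain ⟨x, hx1, hx2⟩ := hh3 (fun i => (pts L l).get (i.cast hlen.symm)) x₀
  have hAh : 1 / 4 ≤ A L l h x := by
    refine le_A hL0 l fun p hp => ?_
    obtain ⟨i, hi⟩ := List.mem_iff_get.1 hp
    have h1 := hx2 (i.cast hlen)
    rw [← hi]
    simpa using h1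
  have hAf₀ : -(r / 64) ≤ A L l f₀.1 x := by
    have h1 : |A L l f₀.1 (x₀ + (x - x₀)) - A L l f₀.1 x₀| ≤ r / 64 := by
      refine A_diff_le hL0 l (fun y => ?_) x₀
      have := hηf (hηd x x₀ hx1 y)
      rw [Real.dist_eq] at this
      exact this.le
    rw [add_sub_cancel] at h1
    have := (abs_le.1 h1).1
    linarith
  have hAfx : A L l f.1 x = A L l f₀.1 x + (r / 2) * A L l h x := by
    have h1 : (f.1 : G → ℝ) = fun y => f₀.1 y + (r / 2) * h y := rfl
    rw [h1, A_add, A_smul]
  have h1 := (abs_le.1 (hAf x)).2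
  rw [hAfx] at h1
  nlinarith

end analysis

end Pool.Agent.H792R2.Tilf
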