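import Pool.Agent.H792R2.JamesB

open Filter Topology Set
open scoped ENNReal

namespace Pool.Agent.H792R2.WM

universe u v

section defs

variable (𝕜 : Type*) [RCLike 𝕜] {E : Type u} [NormedAddCommGroup E] [NormedSpace 𝕜 E]
  {F : Type v} [NormedAddCommGroup F] [NormedSpace 𝕜 F]

/-- `T` attains its norm at a point of the unit sphere. -/
def AttainsNorm (T : E →L[𝕜] F) : Prop := ∃ x : E, ‖x‖ = 1 ∧ ‖T x‖ = ‖T‖

/-- `T` has a maximizing sequence in the unit sphere which is not weakly null. -/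
def HasNonNullMaximizingSeq (T : E →L[𝕜] F) : Prop :=
  ∃ x : ℕ → E, (∀ n, ‖x n‖ = 1) ∧ Tendsto (fun n => ‖T (x n)‖) atTop (𝓝 ‖T‖) ∧
    ¬ ∀ φ : E →L[𝕜] 𝕜, Tendsto (fun n => φ (x n)) atTop (𝓝 0)

variable (E F) in
/-- The weak maximizing property of the pair `(E, F)`. -/
def WMP : Prop := ∀ T : E →L[𝕜] F, HasNonNullMaximizingSeq 𝕜 T → AttainsNorm 𝕜 T

end defs

variable {𝕜 : Type} [RCLike 𝕜] {E : Type u} [NormedAddCommGroup E] [NormedSpace 𝕜 E]

/-- `ℓ_∞` -/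
abbrev Linf (𝕜 : Type) [RCLike 𝕜] : Type := lp (fun _ : ℕ => 𝕜) ∞

theorem memLinf (h : ℕ → E →L[𝕜] 𝕜) (hh : ∀ n, ‖h n‖ ≤ 1) (x : E) :
    Memℓp (fun n => h n x) ∞ := by
  refine memℓp_infty ⟨‖x‖, ?_⟩
  rintro _ ⟨n, rfl⟩
  exact ((h n).le_opNorm x).trans (mul_le_of_le_one_left (norm_nonneg _) (hh n))

/-- the operator into `ℓ_∞` given by a bounded sequence of functionals -/
noncomputable def mkT (h : ℕ → E →L[𝕜] 𝕜) (hh : ∀ n, ‖h n‖ ≤ 1) : E →L[𝕜] Linf 𝕜 :=
  LinearMap.mkContinuous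
    { toFun := fun x => ⟨fun n => h n x, memLinf h hh x⟩
      map_add' := fun x y => by ext n; exact map_add (h n) x y
      map_smul' := fun c x => by ext n; exact map_smul (h n) c x } 1 (fun x => by
        refine lp.norm_le_of_forall_le (by positivity) fun n => ?_
        show ‖h n x‖ ≤ 1 * ‖x‖
        exact ((h n).le_opNorm x).trans (mul_le_mul_of_nonneg_right (hh n) (norm_nonneg _)))

theorem mkT_norm_le (h : ℕ → E →L[𝕜] 𝕜) (hh : ∀ n, ‖h n‖ ≤ 1) : ‖mkT h hh‖ ≤ 1 :=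
  LinearMap.mkContinuous_norm_le _ zero_le_one _

theorem le_mkT (h : ℕ → E →L[𝕜] 𝕜) (hh : ∀ n, ‖h n‖ ≤ 1) (x : E) (n : ℕ) :
    ‖h n x‖ ≤ ‖mkT h hh x‖ :=
  lp.norm_apply_le_norm ENNReal.top_ne_zero (mkT h hh x) n

theorem mkT_le (h : ℕ → E →L[𝕜] 𝕜) (hh : ∀ n, ‖h n‖ ≤ 1) (x : E) {C : ℝ} (hC : 0 ≤ C)
    (hx : ∀ n, ‖h n x‖ ≤ C) : ‖mkT h hh x‖ ≤ C :=
  lp.norm_le_of_forall_le hC hx

theorem exists_unit {F : Type*} [NormedAddCommGroup F] [NormedSpace 𝕜 F] (f : E →L[𝕜] F) {r : ℝ}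
    (hr0 : 0 ≤ r) (hr : r < ‖f‖) : ∃ x : E, ‖x‖ = 1 ∧ r < ‖f x‖ := by
  obtain ⟨x, hx, h1⟩ := f.exists_lt_apply_of_lt_opNorm hr
  have hx0 : x ≠ 0 := by
    rintro rfl
    simp at h1
    linarith
  have hn : 0 < ‖x‖ := norm_pos_iff.2 hx0
  refine ⟨((‖x‖ : 𝕜))⁻¹ • x, ?_, ?_⟩
  · rw [norm_smul, norm_inv, RCLike.norm_ofReal, abs_of_pos hn, inv_mul_cancel₀ hn.ne']
  · rw [map_smul, norm_smul, norm_inv, RCLike.norm_ofReal, abs_of_pos hn]
    refine h1.trans_le ?_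
    have : 1 ≤ ‖x‖⁻¹ := (one_le_inv₀ hn).2 hx.le
    exact le_mul_of_one_le_left (norm_nonneg _) this

/-- The key lemma. -/
theorem keyK (hW : WMP 𝕜 E (Linf 𝕜)) (h : ℕ → E →L[𝕜] 𝕜) (hh : ∀ n, ‖h n‖ ≤ 1) {r : ℝ}
    (hr : r < 1) (hr2 : ∀ x : E, ‖x‖ = 1 → ∀ᶠ n in atTop, ‖h n x‖ ≤ r) (x : ℕ → E)
    (hx : ∀ n, ‖x n‖ = 1) (hx2 : Tendsto (fun n => ‖h n (x n)‖) atTop (𝓝 1))
    (φ : E →L[𝕜] 𝕜) : Tendsto (fun n => φ (x n)) atTop (𝓝 0) := by
  by_contra hcon
  set a : ℕ → ℝ := fun n => 1 - 1 / ((n : ℝ) + 2) with ha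
  have ha0 : ∀ n, 0 ≤ a n := fun n => by
    have h1 : (1 : ℝ) / ((n : ℝ) + 2) ≤ 1 := by
      rw [div_le_one (by positivity)]; have : (0 : ℝ) ≤ n := by positivity
      linarith
    simp only [ha]; linarith
  have ha1 : ∀ n, a n < 1 := fun n => by
    have h1 : (0 : ℝ) < 1 / ((n : ℝ) + 2) := by positivity
    simp only [ha]; linarith
  have hamono : Monotone a := by
    intro m n hmn
    simp only [ha]
    have : (1 : ℝ) / ((n : ℝ) + 2) ≤ 1 / ((m : ℝ) + 2) := by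
      apply one_div_le_one_div_of_le (by positivity)
      have : (m : ℝ) ≤ n := by exact_mod_cast hmn
      linarith
    linarith
  have hat : Tendsto a atTop (𝓝 1) := by
    have h1 : Tendsto (fun n : ℕ => (1 : ℝ) / ((n : ℝ) + 2)) atTop (𝓝 0) := by
      have := (tendsto_add_atTop_iff_nat 1).2 (tendsto_one_div_add_atTop_nhds_zero_nat (𝕜 := ℝ))
      refine this.congr fun n => ?_
      push_cast
      ring_nf
    have h2 := (tendsto_const_nhds (x := (1 : ℝ))).sub h1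
    rw [sub_zero] at h2
    exact h2
  have hH : ∀ n, ‖((a n : ℝ) : 𝕜) • h n‖ ≤ 1 := fun n => by
    rw [norm_smul, RCLike.norm_ofReal, abs_of_nonneg (ha0 n)]
    exact mul_le_one₀ (ha1 n).le (norm_nonneg _) (hh n)
  set T := mkT (fun n => ((a n : ℝ) : 𝕜) • h n) hH with hT
  have hlow : ∀ n, a n * ‖h n (x n)‖ ≤ ‖T (x n)‖ := fun n => by
    have := le_mkT (fun n => ((a n : ℝ) : 𝕜) • h n) hH (x n) n
    simp only [_root_.smul_apply, norm_smul, RCLike.norm_ofReal,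
      abs_of_nonneg (ha0 n)] at this
    exact this
  have hup : ∀ n, ‖T (x n)‖ ≤ ‖T‖ := fun n => by
    have := T.le_opNorm (x n)
    rwa [hx n, mul_one] at this
  have hT1 : ‖T‖ ≤ 1 := mkT_norm_le _ _
  have hlim1 : Tendsto (fun n => a n * ‖h n (x n)‖) atTop (𝓝 1) := by
    simpa using hat.mul hx2
  have hTeq : ‖T‖ = 1 :=
    le_antisymm hT1 (le_of_tendsto' hlim1 fun n => (hlow n).trans (hup n))
  have hmax : Tendsto (fun n => ‖T (x n)‖) atTop (𝓝 ‖T‖) := by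
    rw [hTeq]
    exact tendsto_of_tendsto_of_tendsto_of_le_of_le hlim1 tendsto_const_nhds hlow
      (fun n => (hup n).trans hT1)
  obtain ⟨z, hz, hz2⟩ := hW T ⟨x, hx, hmax, fun hall => hcon (hall φ)⟩
  rw [hTeq] at hz2
  obtain ⟨N, hN⟩ := eventually_atTop.1 (hr2 z hz)
  have hC : ‖T z‖ ≤ max (max r 0) (a N) := by
    refine mkT_le _ _ _ (le_max_of_le_left (le_max_right _ _)) fun n => ?_
    simp only [_root_.smul_apply, norm_smul, RCLike.norm_ofReal,
      abs_of_nonneg (ha0 n)]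
    rcases le_total N n with h1 | h1
    · have h2 := hN n h1
      refine le_max_of_le_left (le_max_of_le_left ?_)
      exact (mul_le_of_le_one_left (norm_nonneg _) (ha1 n).le).trans h2
    · refine le_max_of_le_right ?_
      have h2 : ‖h n z‖ ≤ 1 := by
        have := (h n).le_opNorm z
        rw [hz, mul_one] at this
        exact this.trans (hh n)
      exact (mul_le_of_le_one_right (ha0 n) h2).trans (hamono h1)
  have : max (max r 0) (a N) < 1 := max_lt (max_lt hr one_pos) (ha1 N)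
  linarith

/-- Every functional attains its norm. -/
theorem attains (hW : WMP 𝕜 E (Linf 𝕜)) (f : E →L[𝕜] 𝕜) (hf : ‖f‖ = 1) :
    ∃ x : E, ‖x‖ = 1 ∧ ‖f x‖ = 1 := by
  have hex : ∀ n : ℕ, ∃ x : E, ‖x‖ = 1 ∧ 1 - 1 / ((n : ℝ) + 1) < ‖f x‖ := fun n => by
    refine exists_unit f ?_ ?_
    · have h1 : (1 : ℝ) / ((n : ℝ) + 1) ≤ 1 := by
        rw [div_le_one (by positivity)]; have : (0 : ℝ) ≤ n := by positivity
        linarith
      linarith
    · rw [hf]
      have h1 : (0 : ℝ) < 1 / ((n : ℝ) + 1) := by positivity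
      linarith
  choose x hx hx2 using hex
  set T := mkT (fun _ : ℕ => f) (fun _ => hf.le) with hT
  have hTn : ∀ z, ‖T z‖ = ‖f z‖ := fun z =>
    le_antisymm (mkT_le _ _ _ (norm_nonneg _) fun _ => le_rfl) (le_mkT (fun _ : ℕ => f) (fun _ => hf.le) z 0)
  have hTeq : ‖T‖ = 1 := by
    refine le_antisymm (mkT_norm_le _ _) ?_
    rw [← hf]
    refine f.opNorm_le_bound (norm_nonneg _) fun z => ?_
    rw [← hTn]
    exact T.le_opNorm z
  have hfx : Tendsto (fun n => ‖f (x n)‖) atTop (𝓝 1) := by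
    have h1 : Tendsto (fun n : ℕ => 1 - (1 : ℝ) / ((n : ℝ) + 1)) atTop (𝓝 1) := by
      simpa using (tendsto_const_nhds (x := (1 : ℝ))).sub
        (tendsto_one_div_add_atTop_nhds_zero_nat (𝕜 := ℝ))
    refine tendsto_of_tendsto_of_tendsto_of_le_of_le h1 tendsto_const_nhds
      (fun n => (hx2 n).le) (fun n => ?_)
    have := f.le_opNorm (x n)
    rwa [hx n, mul_one, hf] at this
  obtain ⟨z, hz, hz2⟩ := hW T ⟨x, hx, by rw [hTeq]; simpa only [hTn] using hfx, fun hall => by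
    have h1 := (hall f).norm
    rw [norm_zero] at h1
    exact one_ne_zero (tendsto_nhds_unique hfx h1)⟩
  exact ⟨z, hz, by rw [← hTn, hz2, hTeq]⟩

/-- bounded sequences of functionals have pointwise convergent subsequences -/
theorem exists_subseq (hW : WMP 𝕜 E (Linf 𝕜)) (f : ℕ → E →L[𝕜] 𝕜) (hf : ∀ n, ‖f n‖ ≤ 1) :
    ∃ φ : ℕ → ℕ, StrictMono φ ∧ ∃ g : E →L[𝕜] 𝕜, ∀ x,
      Tendsto (fun n => f (φ n) x) atTop (𝓝 (g x)) := by
  let : NormedSpace ℝ E := NormedSpace.restrictScalars ℝ 𝕜 E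
  have : IsScalarTower ℝ 𝕜 E := .restrictScalars _ _ _
  have hatt : ∀ w : E →L[ℝ] ℝ, ∃ x : E, ‖x‖ ≤ 1 ∧ w x = ‖w‖ := by
    intro w
    rcases eq_or_ne w 0 with rfl | hw
    · exact ⟨0, by simp, by simp⟩
    set g : StrongDual 𝕜 E := StrongDual.extendRCLike (𝕜 := 𝕜) w with hg
    have hre : ∀ x, RCLike.re (g x) = w x := fun x => StrongDual.re_extendRCLike_apply w x
    have hle : ‖w‖ ≤ ‖g‖ := by
      refine w.opNorm_le_bound (norm_nonneg _) fun x => ?_
      rw [← hre, Real.norm_eq_abs]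
      exact (RCLike.abs_re_le_norm _).trans (g.le_opNorm x)
    have hwpos : 0 < ‖w‖ := norm_pos_iff.2 hw
    have hgpos : 0 < ‖g‖ := hwpos.trans_le hle
    obtain ⟨x, hx, hx2⟩ := attains hW (((‖g‖ : ℝ) : 𝕜)⁻¹ • g) (by
      rw [norm_smul, norm_inv, RCLike.norm_ofReal, abs_of_pos hgpos, inv_mul_cancel₀ hgpos.ne'])
    rw [_root_.smul_apply, norm_smul, norm_inv, RCLike.norm_ofReal,
      abs_of_pos hgpos] at hx2
    have hx3 : ‖g x‖ = ‖g‖ := by
      field_simp at hx2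
      linarith
    -- rotate
    have hgx : g x ≠ 0 := fun h0 => by rw [h0, norm_zero] at hx3; exact hgpos.ne hx3
    set c : 𝕜 := (‖g x‖ : 𝕜) / g x with hc
    have hcn : ‖c‖ = 1 := by
      rw [hc, norm_div, RCLike.norm_ofReal, abs_of_nonneg (norm_nonneg _),
        div_self (norm_ne_zero_iff.2 hgx)]
    refine ⟨c • x, by rw [norm_smul, hcn, hx, mul_one], ?_⟩
    have h1 : w (c • x) = ‖g‖ := by
      rw [← hre, map_smul, smul_eq_mul, hc, div_mul_cancel₀ _ hgx, RCLike.ofReal_re, hx3]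
    refine le_antisymm ?_ (h1 ▸ hle)
    have h2 := w.le_opNorm (c • x)
    rw [norm_smul, hcn, hx, mul_one, mul_one, Real.norm_eq_abs] at h2
    exact (le_abs_self _).trans h2
  set u : ℕ → E →L[ℝ] ℝ := fun n => RCLike.reCLM.comp ((f n).restrictScalars ℝ) with hu
  have hux : ∀ n x, u n x = RCLike.re (f n x) := fun n x => rfl
  have hun : ∀ n, ‖u n‖ ≤ 1 := fun n => by
    refine (u n).opNorm_le_bound zero_le_one fun x => ?_
    rw [hux, Real.norm_eq_abs]
    refine (RCLike.abs_re_le_norm _).trans (((f n).le_opNorm x).trans ?_)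
    exact mul_le_mul_of_nonneg_right (hf n) (norm_nonneg _)
  obtain ⟨φ, hφ, hconv⟩ := JamesA.exists_subseq hatt hun
  refine ⟨φ, hφ, ?_⟩
  have hlim : ∀ x, ∃ l : 𝕜, Tendsto (fun n => f (φ n) x) atTop (𝓝 l) := by
    intro x
    obtain ⟨l1, h1⟩ := hconv x
    obtain ⟨l2, h2⟩ := hconv ((RCLike.I : 𝕜) • x)
    refine ⟨(l1 : 𝕜) - RCLike.I * (l2 : 𝕜), ?_⟩
    have e1 : Tendsto (fun n => ((u (φ n) x : ℝ) : 𝕜) -
        RCLike.I * ((u (φ n) ((RCLike.I : 𝕜) • x) : ℝ) : 𝕜)) atTop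
        (𝓝 ((l1 : 𝕜) - RCLike.I * (l2 : 𝕜))) :=
      ((RCLike.continuous_ofReal.tendsto l1).comp h1).sub
        (((RCLike.continuous_ofReal.tendsto l2).comp h2).const_mul _)
    refine e1.congr fun n => ?_
    rw [hux, hux, map_smul, smul_eq_mul, RCLike.I_mul_re]
    apply RCLike.ext
    · simp
    · rcases RCLike.I_eq_zero_or_im_I_eq_one (K := 𝕜) with h0 | h0
      · have : RCLike.im (f (φ n) x) = 0 := by
          have := RCLike.mul_im_I_ax (K := 𝕜) (f (φ n) x)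
          rw [h0] at this; simpa using this.symm
        simp [this]
      · simp [h0]
  choose l hl using hlim
  have hlt : Tendsto (fun n x => f (φ n) x) atTop (𝓝 l) := tendsto_pi_nhds.2 hl
  set L : E →ₗ[𝕜] 𝕜 := linearMapOfTendsto l (fun n => (f (φ n)).toLinearMap) hlt with hL
  refine ⟨L.mkContinuous 1 fun x => ?_, fun x => hl x⟩
  refine le_of_tendsto (hl x).norm (Eventually.of_forall fun n => ?_)
  exact ((f (φ n)).le_opNorm x).trans (mul_le_mul_of_nonneg_right (hf _) (norm_nonneg _))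

/-- In infinite dimension there is a pointwise null sequence of norm one functionals. -/
theorem exists_null (hW : WMP 𝕜 E (Linf 𝕜)) (hfd : ¬ FiniteDimensional 𝕜 E) :
    ∃ v : ℕ → E →L[𝕜] 𝕜, (∀ n, ‖v n‖ = 1) ∧ ∀ x, Tendsto (fun n => v n x) atTop (𝓝 0) := by
  have hfd2 : ¬ FiniteDimensional 𝕜 (E →L[𝕜] 𝕜) := by
    intro h
    apply hfd
    have : FiniteDimensional 𝕜 (StrongDual 𝕜 E) := h
    have : FiniteDimensional 𝕜 (StrongDual 𝕜 (StrongDual 𝕜 E)) := inferInstance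
    have hinj : Function.Injective (NormedSpace.inclusionInDoubleDual 𝕜 E) :=
      (NormedSpace.inclusionInDoubleDualLi 𝕜 (E := E)).injective
    exact @FiniteDimensional.of_injective 𝕜 E _ _ _ (StrongDual 𝕜 (StrongDual 𝕜 E)) _ _
      (NormedSpace.inclusionInDoubleDual 𝕜 E : E →L[𝕜] StrongDual 𝕜 (StrongDual 𝕜 E)).toLinearMap
      hinj _
  obtain ⟨R, g, hR, hg1, hg2⟩ := exists_seq_norm_le_one_le_norm_sub (𝕜 := 𝕜) hfd2
  have hR0 : 0 < R := by linarith
  set f : ℕ → E →L[𝕜] 𝕜 := fun n => ((R : ℝ) : 𝕜)⁻¹ • g n with hf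
  have hfn : ∀ n, ‖f n‖ ≤ 1 := fun n => by
    rw [hf]
    simp only
    rw [norm_smul, norm_inv, RCLike.norm_ofReal, abs_of_pos hR0, inv_mul_le_one₀ hR0]
    exact hg1 n
  have hsep : ∀ m n, m ≠ n → R⁻¹ ≤ ‖f m - f n‖ := fun m n hmn => by
    have e : f m - f n = ((R : ℝ) : 𝕜)⁻¹ • (g m - g n) := by
      simp only [hf]
      exact (smul_sub _ _ _).symm
    rw [e, norm_smul, norm_inv, RCLike.norm_ofReal, abs_of_pos hR0]
    exact le_mul_of_one_le_right (inv_nonneg.2 hR0.le) (hg2 hmn)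
  obtain ⟨φ, hφ, h, hh⟩ := exists_subseq hW f hfn
  set w : ℕ → E →L[𝕜] 𝕜 := fun n => f (φ n) - h with hw
  have hRi : 0 < R⁻¹ := inv_pos.2 hR0
  have hbig : ∃ N, ∀ n, N ≤ n → R⁻¹ / 2 ≤ ‖w n‖ := by
    by_contra hcon
    push Not at hcon
    obtain ⟨n1, -, h1⟩ := hcon 0
    obtain ⟨n2, hn2, h2⟩ := hcon (n1 + 1)
    have h3 := hsep (φ n1) (φ n2) (fun e => by have := hφ.injective e; omega)
    have h4 : f (φ n1) - f (φ n2) = w n1 - w n2 := by simp [hw]
    rw [h4] at h3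
    have h5 := norm_sub_le (w n1) (w n2)
    linarith
  obtain ⟨N, hN⟩ := hbig
  have hpos : ∀ n, 0 < ‖w (N + n)‖ := fun n =>
    lt_of_lt_of_le (by positivity) (hN (N + n) (Nat.le_add_right _ _))
  refine ⟨fun n => ((‖w (N + n)‖ : ℝ) : 𝕜)⁻¹ • w (N + n), fun n => ?_, fun x => ?_⟩
  · rw [norm_smul, norm_inv, RCLike.norm_ofReal, abs_of_pos (hpos n), inv_mul_cancel₀ (hpos n).ne']
  · rw [tendsto_zero_iff_norm_tendsto_zero]
    have h1 : Tendsto (fun n => w n x) atTop (𝓝 0) := by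
      have := (hh x).sub_const (h x)
      simpa [hw] using this
    have h2 : Tendsto (fun n => ‖w (N + n) x‖) atTop (𝓝 0) := by
      have h3 := h1.norm
      rw [norm_zero] at h3
      have h4 := (tendsto_add_atTop_iff_nat N).2 h3
      refine h4.congr fun n => by rw [add_comm]
    have h3 : Tendsto (fun n => 2 * R * ‖w (N + n) x‖) atTop (𝓝 0) := by
      simpa using h2.const_mul (2 * R)
    refine squeeze_zero (fun n => norm_nonneg _) (fun n => ?_) h3
    rw [_root_.smul_apply, norm_smul, norm_inv, RCLike.norm_ofReal,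
      abs_of_pos (hpos n)]
    refine mul_le_mul_of_nonneg_right ?_ (norm_nonneg _)
    rw [inv_le_comm₀ (hpos n) (by positivity)]
    refine le_trans (le_of_eq ?_) (hN (N + n) (Nat.le_add_right _ _))
    field_simp

/-- the `c_0`-like behaviour -/
theorem limsup_le (hW : WMP 𝕜 E (Linf 𝕜)) (v : ℕ → E →L[𝕜] 𝕜) (hv : ∀ n, ‖v n‖ = 1)
    (hv0 : ∀ x, Tendsto (fun n => v n x) atTop (𝓝 0)) (g : E →L[𝕜] 𝕜) {η : ℝ} (hη : 0 < η) :
    ∀ᶠ n in atTop, ‖g + v n‖ ≤ max ‖g‖ 1 + η := by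
  by_contra hcon
  rw [Filter.not_eventually] at hcon
  obtain ⟨φ, hφ, hφ2⟩ := Filter.extraction_of_frequently_atTop hcon
  set M := max ‖g‖ 1 with hM
  have hM1 : 1 ≤ M := le_max_right _ _
  have hMg : ‖g‖ ≤ M := le_max_left _ _
  have hbig : ∀ k, M + η < ‖g + v (φ k)‖ := fun k => not_le.1 (hφ2 k)
  have hpos : ∀ k, 0 < ‖g + v (φ k)‖ := fun k => lt_trans (by linarith) (hbig k)
  set h : ℕ → E →L[𝕜] 𝕜 := fun k => ((‖g + v (φ k)‖ : ℝ) : 𝕜)⁻¹ • (g + v (φ k)) with hh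
  have hn : ∀ k, ‖h k‖ = 1 := fun k => by
    simp only [hh]
    rw [norm_smul, norm_inv, RCLike.norm_ofReal, abs_of_pos (hpos k), inv_mul_cancel₀ (hpos k).ne']
  have hhx : ∀ k x, ‖h k x‖ * ‖g + v (φ k)‖ = ‖g x + v (φ k) x‖ := fun k x => by
    simp only [hh]
    rw [_root_.smul_apply, norm_smul, norm_inv, RCLike.norm_ofReal,
      abs_of_pos (hpos k), mul_comm, ← mul_assoc, mul_inv_cancel₀ (hpos k).ne', one_mul]
    rfl
  have hr : (M + η / 2) / (M + η) < 1 := by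
    rw [div_lt_one (by linarith)]; linarith
  have hr2 : ∀ x : E, ‖x‖ = 1 → ∀ᶠ k in atTop, ‖h k x‖ ≤ (M + η / 2) / (M + η) := by
    intro x hx
    have h1 : Tendsto (fun k => ‖v (φ k) x‖) atTop (𝓝 0) := by
      have := ((hv0 x).comp hφ.tendsto_atTop).norm
      simpa using this
    filter_upwards [h1.eventually (gt_mem_nhds (show (0 : ℝ) < η / 2 by linarith))] with k hk
    rw [le_div_iff₀ (by linarith)]
    calc ‖h k x‖ * (M + η) ≤ ‖h k x‖ * ‖g + v (φ k)‖ :=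
          mul_le_mul_of_nonneg_left (hbig k).le (norm_nonneg _)
      _ = ‖g x + v (φ k) x‖ := hhx k x
      _ ≤ ‖g x‖ + ‖v (φ k) x‖ := norm_add_le _ _
      _ ≤ M + η / 2 := by
          have h2 := g.le_opNorm x
          rw [hx, mul_one] at h2
          linarith
  have hex : ∀ n : ℕ, ∃ x : E, ‖x‖ = 1 ∧ 1 - 1 / ((n : ℝ) + 1) < ‖h n x‖ := fun n => by
    refine exists_unit (h n) ?_ ?_
    · have h1 : (1 : ℝ) / ((n : ℝ) + 1) ≤ 1 := by
        rw [div_le_one (by positivity)]; have : (0 : ℝ) ≤ n := by positivity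
        linarith
      linarith
    · rw [hn]
      have h1 : (0 : ℝ) < 1 / ((n : ℝ) + 1) := by positivity
      linarith
  choose x hx hx2 using hex
  have hlow : Tendsto (fun n : ℕ => 1 - (1 : ℝ) / ((n : ℝ) + 1)) atTop (𝓝 1) := by
    simpa using (tendsto_const_nhds (x := (1 : ℝ))).sub
      (tendsto_one_div_add_atTop_nhds_zero_nat (𝕜 := ℝ))
  have hx3 : Tendsto (fun n => ‖h n (x n)‖) atTop (𝓝 1) := by
    refine tendsto_of_tendsto_of_tendsto_of_le_of_le hlow tendsto_const_nhds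
      (fun n => (hx2 n).le) (fun n => ?_)
    have := (h n).le_opNorm (x n)
    rwa [hx n, mul_one, hn] at this
  have hg := keyK hW h (fun k => (hn k).le) hr hr2 x hx hx3 g
  have h1 : Tendsto (fun n => ‖g (x n)‖ + 1) atTop (𝓝 (0 + 1)) := by
    have := hg.norm
    rw [norm_zero] at this
    exact this.add_const 1
  have h2 : Tendsto (fun n : ℕ => (M + η) * (1 - (1 : ℝ) / ((n : ℝ) + 1))) atTop
      (𝓝 ((M + η) * 1)) := hlow.const_mul _
  have h3 : (M + η) * 1 ≤ 0 + 1 := by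
    refine le_of_tendsto_of_tendsto' h2 h1 fun n => ?_
    have h4 : (0 : ℝ) ≤ 1 - 1 / ((n : ℝ) + 1) := by
      have h1 : (1 : ℝ) / ((n : ℝ) + 1) ≤ 1 := by
        rw [div_le_one (by positivity)]; have : (0 : ℝ) ≤ n := by positivity
        linarith
      linarith
    calc (M + η) * (1 - (1 : ℝ) / ((n : ℝ) + 1)) ≤ ‖g + v (φ n)‖ * ‖h n (x n)‖ :=
          mul_le_mul (hbig n).le (hx2 n).le h4 (norm_nonneg _)
      _ = ‖g (x n) + v (φ n) (x n)‖ := by rw [mul_comm, hhx]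
      _ ≤ ‖g (x n)‖ + ‖v (φ n) (x n)‖ := norm_add_le _ _
      _ ≤ ‖g (x n)‖ + 1 := by
          have h2 := (v (φ n)).le_opNorm (x n)
          rw [hx, mul_one, hv] at h2
          linarith
  linarith

/-- The main theorem: if `(E, ℓ_∞)` has the weak maximizing property then `E` is finite
dimensional. -/
theorem main (hW : WMP 𝕜 E (Linf 𝕜)) : FiniteDimensional 𝕜 E := by
  classical
  by_contra hfd
  obtain ⟨v, hv, hv0⟩ := exists_null hW hfd
  -- almost norming vectors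
  have hex : ∀ n : ℕ, ∃ x : E, ‖x‖ = 1 ∧ 1 - 1 / ((n : ℝ) + 2) < ‖v n x‖ := fun n => by
    refine exists_unit (v n) ?_ ?_
    · have h1 : (1 : ℝ) / ((n : ℝ) + 2) ≤ 1 := by
        rw [div_le_one (by positivity)]; have : (0 : ℝ) ≤ n := by positivity
        linarith
      linarith
    · rw [hv]
      have h1 : (0 : ℝ) < 1 / ((n : ℝ) + 2) := by positivity
      linarith
  choose x hx hx2 using hex
  have hhalf : ∀ n, 1 / 2 ≤ ‖v n (x n)‖ := fun n => by
    have h1 : (1 : ℝ) / ((n : ℝ) + 2) ≤ 1 / 2 := by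
      apply one_div_le_one_div_of_le (by norm_num)
      have : (0 : ℝ) ≤ n := by positivity
      linarith
    linarith [hx2 n]
  have hx3 : Tendsto (fun n => ‖v n (x n)‖) atTop (𝓝 1) := by
    have h1 : Tendsto (fun n : ℕ => (1 : ℝ) / ((n : ℝ) + 2)) atTop (𝓝 0) := by
      have := (tendsto_add_atTop_iff_nat 1).2 (tendsto_one_div_add_atTop_nhds_zero_nat (𝕜 := ℝ))
      refine this.congr fun n => ?_
      push_cast
      ring_nf
    have hlow := (tendsto_const_nhds (x := (1 : ℝ))).sub h1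
    rw [sub_zero] at hlow
    refine tendsto_of_tendsto_of_tendsto_of_le_of_le hlow tendsto_const_nhds
      (fun n => (hx2 n).le) (fun n => ?_)
    have := (v n).le_opNorm (x n)
    rwa [hx n, mul_one, hv] at this
  have hxw : ∀ φ : E →L[𝕜] 𝕜, Tendsto (fun n => φ (x n)) atTop (𝓝 0) :=
    keyK hW v (fun k => (hv k).le) (r := 1 / 2) (by norm_num)
      (fun z _ => by
        have h1 : Tendsto (fun k => ‖v k z‖) atTop (𝓝 0) := by simpa using (hv0 z).norm
        exact (h1.eventually (gt_mem_nhds (by norm_num : (0 : ℝ) < 1 / 2))).mono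
          fun k hk => le_of_lt hk) x hx hx3
  -- selection
  have hsel : ∀ J : Finset ℕ, ∃ n : ℕ, (∀ j ∈ J, j < n) ∧
      ‖∑ j ∈ J, v j + v n‖ ≤ max ‖∑ j ∈ J, v j‖ 1 + (1 / 2) ^ (J.card + 1) ∧
      (∀ j ∈ J, ‖v n (x j)‖ ≤ (1 / 4) ^ (J.card + 2)) ∧
      (∀ j ∈ J, ‖v j (x n)‖ ≤ (1 / 4) ^ (J.card + 2)) := by
    intro J
    have e1 : ∀ᶠ n in atTop, ∀ j ∈ J, j < n :=
      (Filter.eventually_all_finset J).2 fun j _ => eventually_gt_atTop j
    have e2 := limsup_le hW v hv hv0 (∑ j ∈ J, v j)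
      (show (0 : ℝ) < (1 / 2) ^ (J.card + 1) by positivity)
    have e3 : ∀ᶠ n in atTop, ∀ j ∈ J, ‖v n (x j)‖ ≤ (1 / 4) ^ (J.card + 2) := by
      refine (Filter.eventually_all_finset J).2 fun j _ => ?_
      have h1 : Tendsto (fun k => ‖v k (x j)‖) atTop (𝓝 0) := by simpa using (hv0 (x j)).norm
      exact (h1.eventually (gt_mem_nhds (by positivity : (0 : ℝ) < (1 / 4) ^ (J.card + 2)))).mono
          fun k hk => le_of_lt hk
    have e4 : ∀ᶠ n in atTop, ∀ j ∈ J, ‖v j (x n)‖ ≤ (1 / 4) ^ (J.card + 2) := by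
      refine (Filter.eventually_all_finset J).2 fun j _ => ?_
      have h1 : Tendsto (fun k => ‖v j (x k)‖) atTop (𝓝 0) := by simpa using (hxw (v j)).norm
      exact (h1.eventually (gt_mem_nhds (by positivity : (0 : ℝ) < (1 / 4) ^ (J.card + 2)))).mono
          fun k hk => le_of_lt hk
    obtain ⟨n, hn⟩ := (e1.and (e2.and (e3.and e4))).exists
    exact ⟨n, hn.1, hn.2.1, hn.2.2.1, hn.2.2.2⟩
  choose nx hnx1 hnx2 hnx3 hnx4 using hsel
  let J : ℕ → Finset ℕ := fun k => Nat.rec ∅ (fun _ S => insert (nx S) S) k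
  have hJ0 : J 0 = ∅ := rfl
  have hJ1 : ∀ k, J (k + 1) = insert (nx (J k)) (J k) := fun k => rfl
  set m : ℕ → ℕ := fun k => nx (J k) with hm
  clear_value J
  have hnot : ∀ k, m k ∉ J k := fun k h => lt_irrefl _ (hnx1 (J k) _ h)
  have hcard : ∀ k, (J k).card = k := by
    intro k
    induction k with
    | zero => simp [hJ0]
    | succ k ih => rw [hJ1, Finset.card_insert_of_notMem (hnot k), ih]
  have hmem : ∀ i j, i < j → m i ∈ J j := by
    intro i j hij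
    induction j, hij using Nat.le_induction with
    | base => rw [hJ1]; exact Finset.mem_insert_self _ _
    | succ j _ ih => rw [hJ1]; exact Finset.mem_insert_of_mem ih
  have hmlt : StrictMono m := fun i j hij => hnx1 (J j) _ (hmem i j hij)
  set s : ℕ → E →L[𝕜] 𝕜 := fun k => ∑ j ∈ J k, v j with hs
  have hs0 : s 0 = 0 := by simp [hs, hJ0]
  have hs1 : ∀ k, s (k + 1) = s k + v (m k) := fun k => by
    simp only [hs]
    rw [hJ1, Finset.sum_insert (hnot k), add_comm]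
  have hsn : ∀ k, ‖s k‖ ≤ 2 - (1 / 2) ^ k := by
    intro k
    induction k with
    | zero => rw [hs0]; norm_num
    | succ k ih =>
      rw [hs1]
      have h1 := hnx2 (J k)
      rw [hcard] at h1
      have h2 : max ‖s k‖ 1 ≤ 2 - (1 / 2) ^ k := by
        refine max_le ih ?_
        have : ((1 : ℝ) / 2) ^ k ≤ 1 := pow_le_one₀ (by norm_num) (by norm_num)
        linarith
      have h3 : ((1 : ℝ) / 2) ^ k = 2 * (1 / 2) ^ (k + 1) := by rw [pow_succ]; ring
      have h4 : ‖s k + v (m k)‖ ≤ max ‖s k‖ 1 + (1 / 2) ^ (k + 1) := h1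
      linarith
  have hsx : ∀ k z, s k z = ∑ i ∈ Finset.range k, v (m i) z := by
    intro k z
    induction k with
    | zero => rw [hs0]; simp
    | succ k ih => rw [hs1, Finset.sum_range_succ, ← ih]; rfl
  have hoff : ∀ i j, i ≠ j → ‖v (m i) (x (m j))‖ ≤ (1 / 4) ^ (i + 2) := by
    intro i j hij
    rcases lt_or_gt_of_ne hij with h | h
    · have h1 := hnx4 (J j) (m i) (hmem i j h)
      rw [hcard] at h1
      exact h1.trans (pow_le_pow_of_le_one (by norm_num) (by norm_num) (by omega))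
    · have h1 := hnx3 (J i) (m j) (hmem j i h)
      rwa [hcard] at h1
  obtain ⟨ψ, hψ, g, hg⟩ := exists_subseq hW (fun k => (((1 / 2 : ℝ)) : 𝕜) • s k) (fun k => by
    rw [norm_smul, RCLike.norm_ofReal, abs_of_pos (by norm_num : (0 : ℝ) < 1 / 2)]
    have h1 := hsn k
    have h2 : (0 : ℝ) ≤ (1 / 2) ^ k := by positivity
    linarith)
  have hgeo : ∀ k : ℕ, ∑ i ∈ Finset.range k, ((1 : ℝ) / 4) ^ (i + 2) ≤ 1 / 8 := by
    intro k
    have : ∑ i ∈ Finset.range k, ((1 : ℝ) / 4) ^ (i + 2) ≤ 1 / 8 - (1 / 8) * (1 / 4) ^ k := by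
      induction k with
      | zero => simp
      | succ k ih =>
        rw [Finset.sum_range_succ]
        have h1 : ((1 : ℝ) / 4) ^ (k + 2) = (1 / 16) * (1 / 4) ^ k := by rw [pow_add]; ring
        have h2 : ((1 : ℝ) / 4) ^ (k + 1) = (1 / 4) * (1 / 4) ^ k := by rw [pow_succ]; ring
        have h3 : (0 : ℝ) ≤ (1 / 4) ^ k := by positivity
        rw [h1, h2]
        linarith
    have h3 : (0 : ℝ) ≤ (1 / 4) ^ k := by positivity
    linarith
  have hglow : ∀ j, 1 / 8 ≤ ‖g (x (m j))‖ := by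
    intro j
    refine ge_of_tendsto (hg (x (m j))).norm ?_
    filter_upwards [hψ.tendsto_atTop.eventually_gt_atTop j] with k hk
    have h1 : s (ψ k) (x (m j)) = v (m j) (x (m j)) +
        ∑ i ∈ (Finset.range (ψ k)).erase j, v (m i) (x (m j)) := by
      rw [hsx]
      exact (Finset.add_sum_erase _ (fun i => v (m i) (x (m j))) (Finset.mem_range.2 hk)).symm
    have h2 : ‖∑ i ∈ (Finset.range (ψ k)).erase j, v (m i) (x (m j))‖ ≤ 1 / 8 := by
      refine (norm_sum_le _ _).trans ?_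
      refine (Finset.sum_le_sum (g := fun i => ((1 : ℝ) / 4) ^ (i + 2)) fun i hi =>
        hoff i j (Finset.ne_of_mem_erase hi)).trans ?_
      refine (Finset.sum_le_sum_of_subset_of_nonneg (Finset.erase_subset _ _)
        (fun i _ _ => by positivity)).trans (hgeo _)
    have h3 : ‖v (m j) (x (m j))‖ ≤ ‖s (ψ k) (x (m j))‖ + 1 / 8 := by
      have : v (m j) (x (m j)) = s (ψ k) (x (m j)) -
        ∑ i ∈ (Finset.range (ψ k)).erase j, v (m i) (x (m j)) := by rw [h1]; ring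
      rw [this]
      exact (norm_sub_le _ _).trans (by linarith)
    have h4 := hhalf (m j)
    rw [_root_.smul_apply, norm_smul, RCLike.norm_ofReal,
      abs_of_pos (by norm_num : (0 : ℝ) < 1 / 2)]
    linarith
  have hgz : Tendsto (fun j => ‖g (x (m j))‖) atTop (𝓝 0) := by
    have := ((hxw g).comp hmlt.tendsto_atTop).norm
    simpa using this
  have := ge_of_tendsto' hgz hglow
  norm_num at this

end Pool.Agent.H792R2.WM
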